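import Pool.Agent.Helper7.RP.Prob

set_option autoImplicit false

/-!
The numerical inequalities for large dimensions.
-/

namespace Pool.Agent.Helper7.RP

open Filter Topology
open Pool.Agent.K3h76.RB Pool.Agent.K3h76.SD

lemma ev_small {r : ℝ} (h0 : 0 < r) (h1 : r < 1) (k : ℕ) (C ε : ℝ) (hε : 0 < ε) :
    ∀ᶠ d : ℕ in atTop, C * (d : ℝ) ^ k * r ^ d ≤ ε := by
  have h := (tendsto_pow_const_mul_const_pow_of_abs_lt_one k
    (show |r| < 1 by rw [abs_of_pos h0]; exact h1)).const_mul C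
  rw [mul_zero] at h
  filter_upwards [h.eventually (ge_mem_nhds hε)] with d hd
  rw [mul_assoc]
  exact hd

/-- the number of directions for the narrow cones -/
lemma code_small {n : ℕ} (hn : 1 ≤ n) :
    ((n + 1 : ℕ) : ℝ) * √(2 * Real.pi * ((n + 1 : ℕ) : ℝ)) *
      Real.log (1 + 4 * (((n + 1 : ℕ) : ℝ) + 1) / √(1 - 1 / 2)) * (1 / √(1 / 2)) ^ n ≤
      36 * ((n + 1 : ℕ) : ℝ) ^ 3 * √2 ^ (n + 1) := by
  set D : ℝ := ((n + 1 : ℕ) : ℝ) with hD
  have hD1 : (1 : ℝ) ≤ D := by rw [hD]; push_cast; linarith [Nat.cast_nonneg (α := ℝ) n]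
  have h2 : (0 : ℝ) < √2 := by positivity
  have hs2 : √2 * √2 = (2 : ℝ) := Real.mul_self_sqrt (by norm_num)
  have hs2' : √2 < 1.415 := by
    rw [Real.sqrt_lt' (by norm_num)]
    norm_num
  have hs1 : 1 ≤ √2 := by
    rw [Real.one_le_sqrt]; norm_num
  have e1 : √(1 / 2 : ℝ) = 1 / √2 := by
    rw [Real.sqrt_div zero_le_one, Real.sqrt_one]
  have e2 : (1 - 1 / 2 : ℝ) = 1 / 2 := by norm_num
  rw [e2, e1]
  have e3 : 4 * (D + 1) / (1 / √2) = 4 * (D + 1) * √2 := by field_simp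
  have e4 : 1 / (1 / √2) = √2 := by field_simp
  rw [e3, e4]
  have h3 : Real.log (1 + 4 * (D + 1) * √2) ≤ 12 * D := by
    have := Real.log_le_sub_one_of_pos (show 0 < 1 + 4 * (D + 1) * √2 by positivity)
    nlinarith
  have h3' : 0 ≤ Real.log (1 + 4 * (D + 1) * √2) := by
    apply Real.log_nonneg
    have : 0 ≤ 4 * (D + 1) * √2 := by positivity
    linarith
  have h4 : √(2 * Real.pi * D) ≤ 3 * D := by
    rw [Real.sqrt_le_left (by positivity)]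
    have := Real.pi_lt_d2
    nlinarith
  have h5 : √2 ^ n ≤ √2 ^ (n + 1) := pow_le_pow_right₀ hs1 (by omega)
  calc D * √(2 * Real.pi * D) * Real.log (1 + 4 * (D + 1) * √2) * √2 ^ n
      ≤ D * (3 * D) * (12 * D) * √2 ^ (n + 1) := by gcongr
    _ = _ := by ring

/-- the share of the cone -/
lemma share_big {s : ℝ} (hs : 0 < s) (hs1 : s < 1) {n : ℕ} :
    s ^ (n + 1) / (3 * ((n + 1 : ℕ) : ℝ)) ≤ shareG s n := by
  unfold shareG
  have e : ((n + 1 : ℕ) : ℝ) = (n : ℝ) + 1 := by push_cast; ring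
  rw [e]
  have hn0 : (0 : ℝ) ≤ n := Nat.cast_nonneg n
  have hpi := Real.pi_pos
  have h1 : 1 / 3 ≤ √(((n : ℝ) + 1) / (2 * Real.pi)) := by
    apply Real.le_sqrt_of_sq_le
    rw [le_div_iff₀ (by positivity)]
    have := Real.pi_lt_d2
    nlinarith
  have h2 : s ^ (n + 1) ≤ s ^ n := pow_le_pow_of_le_one hs.le hs1.le (by omega)
  calc s ^ (n + 1) / (3 * ((n : ℝ) + 1)) = s ^ (n + 1) / ((n : ℝ) + 1) * (1 / 3) := by
        field_simp
    _ ≤ s ^ n / ((n : ℝ) + 1) * √(((n : ℝ) + 1) / (2 * Real.pi)) := by gcongr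

/-- All the conditions hold in large dimensions. -/
theorem params {q : ℝ} (hq : √2 < q) : ∃ (q₁ t s η c : ℝ) (n₀ : ℕ), 1 < q₁ ∧ 0 < t ∧ t < 1 ∧
    0 < s ∧ s < 1 ∧ t ^ 2 + s ^ 2 = 1 ∧ 0 < η ∧ η < t ∧ 0 < c ∧ 1 ≤ n₀ ∧ ∀ n : ℕ, n₀ ≤ n →
      1 - (1 - 1 / 2) * (((n + 1 : ℕ) : ℝ) / (((n + 1 : ℕ) : ℝ) + 1)) ≤ (t - η) ^ 2 ∧
      36 * ((n + 1 : ℕ) : ℝ) ^ 3 * √2 ^ (n + 1) + 2 + Real.exp (c * ((n + 1 : ℕ) : ℝ)) * q₁ ^ (n + 1)
        ≤ q ^ (n + 1) ∧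
      ((n + 1 : ℕ) : ℝ) * Real.log (1 + 2 / η) + Real.exp (c * ((n + 1 : ℕ) : ℝ)) ≤
        shareG s n * (q₁ ^ (n + 1) - 1) := by
  have hs2 : √2 * √2 = (2 : ℝ) := Real.mul_self_sqrt (by norm_num)
  have h20 : (0 : ℝ) < √2 := by positivity
  have h21 : 1 < √2 := by
    rw [Real.lt_sqrt zero_le_one]
    norm_num
  set q₁ : ℝ := (√2 + q) / 2 with hq₁
  have hq₁1 : √2 < q₁ := by rw [hq₁]; linarith
  have hq₁2 : q₁ < q := by rw [hq₁]; linarith
  have hq₁0 : 0 < q₁ := by linarith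
  have hq0 : 0 < q := by linarith
  have hq₁sq : 2 < q₁ ^ 2 := by nlinarith
  have hinv : 1 / q₁ ^ 2 < 1 / 2 := one_div_lt_one_div_of_lt (by norm_num) hq₁sq
  have hinv0 : 0 < 1 / q₁ ^ 2 := by positivity
  set T : ℝ := (1 / 2 + (1 - 1 / q₁ ^ 2)) / 2 with hT
  have hT1 : 1 / 2 < T := by rw [hT]; linarith
  have hT2 : T < 1 - 1 / q₁ ^ 2 := by rw [hT]; linarith
  set t : ℝ := √T with ht
  set s : ℝ := √(1 - T) with hs
  have hT0 : 0 < T := by linarith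
  have hT3 : 0 < 1 - T := by linarith
  have ht0 : 0 < t := Real.sqrt_pos.2 hT0
  have hs0 : 0 < s := Real.sqrt_pos.2 hT3
  have htt : t ^ 2 = T := Real.sq_sqrt hT0.le
  have hss : s ^ 2 = 1 - T := Real.sq_sqrt hT3.le
  have ht1 : t < 1 := by
    rw [ht, Real.sqrt_lt' one_pos]; linarith
  have hs1 : s < 1 := by
    rw [hs, Real.sqrt_lt' one_pos]; linarith
  set h : ℝ := √(1 / 2 : ℝ) with hh
  have hh0 : 0 < h := Real.sqrt_pos.2 (by norm_num)
  have hhh : h ^ 2 = 1 / 2 := Real.sq_sqrt (by norm_num)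
  have hht : h < t := Real.sqrt_lt_sqrt (by norm_num) hT1
  set η : ℝ := (t - h) / 2 with hη
  have hη0 : 0 < η := by rw [hη]; linarith
  have hηt : η < t := by rw [hη]; linarith
  have htη : h < t - η := by rw [hη]; linarith
  have htη2 : 1 / 2 < (t - η) ^ 2 := by rw [← hhh]; exact pow_lt_pow_left₀ htη hh0.le (by norm_num)
  -- the base
  set ρ : ℝ := s * q₁ with hρ
  have hρ1 : 1 < ρ := by
    have h1 : 1 < s ^ 2 * q₁ ^ 2 := by
      rw [hss]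
      have h2 : 1 / q₁ ^ 2 < 1 - T := by linarith
      rwa [div_lt_iff₀ (by positivity)] at h2
    have h2 : 1 < ρ ^ 2 := by rw [hρ, mul_pow]; exact h1
    by_contra hcon
    push Not at hcon
    have h3 : 0 < ρ := by rw [hρ]; positivity
    have := pow_le_pow_left₀ h3.le hcon 2
    linarith
  set c : ℝ := min (Real.log (q / q₁)) (Real.log ρ) / 2 with hc
  have hl1 : 0 < Real.log (q / q₁) := Real.log_pos (by rw [lt_div_iff₀ hq₁0]; linarith)
  have hl2 : 0 < Real.log ρ := Real.log_pos hρ1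
  have hmin : 0 < min (Real.log (q / q₁)) (Real.log ρ) := lt_min hl1 hl2
  have hc0 : 0 < c := by rw [hc]; linarith
  have hc1 : Real.exp c < q / q₁ := by
    rw [← Real.lt_log_iff_exp_lt (by positivity)]
    have := min_le_left (Real.log (q / q₁)) (Real.log ρ)
    rw [hc]; linarith
  have hc2 : Real.exp c < ρ := by
    rw [← Real.lt_log_iff_exp_lt (by linarith)]
    have := min_le_right (Real.log (q / q₁)) (Real.log ρ)
    rw [hc]; linarith
  have hc1' : Real.exp c * q₁ / q < 1 := by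
    rw [div_lt_one hq0]
    rwa [lt_div_iff₀ hq₁0] at hc1
  have hρ0 : 0 < ρ := by linarith
  -- the eventual inequalities
  have E1 : ∀ᶠ d : ℕ in atTop, 1 - (1 - 1 / 2) * ((d : ℝ) / ((d : ℝ) + 1)) ≤ (t - η) ^ 2 := by
    have hlim : Tendsto (fun d : ℕ => 1 - (1 - 1 / 2) * ((d : ℝ) / ((d : ℝ) + 1))) atTop
        (𝓝 (1 - (1 - 1 / 2) * 1)) :=
      tendsto_const_nhds.sub ((tendsto_natCast_div_add_atTop (1 : ℝ)).const_mul _)
    have h3 : (1 - (1 - 1 / 2) * 1 : ℝ) < (t - η) ^ 2 := by linarith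
    exact (hlim.eventually (gt_mem_nhds h3)).mono fun d hd => hd.le
  have E2 : ∀ᶠ d : ℕ in atTop, 36 * (d : ℝ) ^ 3 * (√2 / q) ^ d ≤ 1 / 3 :=
    ev_small (by positivity) (by rw [div_lt_one hq0]; exact hq) 3 36 _ (by norm_num)
  have E3 : ∀ᶠ d : ℕ in atTop, 2 * (d : ℝ) ^ 0 * (1 / q) ^ d ≤ 1 / 3 :=
    ev_small (by positivity) (by rw [div_lt_one hq0]; linarith) 0 2 _ (by norm_num)
  have E4 : ∀ᶠ d : ℕ in atTop, 1 * (d : ℝ) ^ 0 * (Real.exp c * q₁ / q) ^ d ≤ 1 / 3 :=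
    ev_small (by positivity) hc1' 0 1 _ (by norm_num)
  have E5 : ∀ᶠ d : ℕ in atTop, (6 * Real.log (1 + 2 / η)) * (d : ℝ) ^ 2 * (1 / ρ) ^ d ≤ 1 / 2 :=
    ev_small (by positivity) (by rw [div_lt_one hρ0]; exact hρ1) 2 _ _ (by norm_num)
  have E6 : ∀ᶠ d : ℕ in atTop, 6 * (d : ℝ) ^ 1 * (Real.exp c / ρ) ^ d ≤ 1 / 2 :=
    ev_small (by positivity) (by rw [div_lt_one hρ0]; exact hc2) 1 6 _ (by norm_num)
  obtain ⟨d₀, hd₀⟩ := ((((((E1.and E2).and E3).and E4).and E5).and E6).and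
    (eventually_ge_atTop 2)).exists_forall_of_atTop
  refine ⟨q₁, t, s, η, c, d₀ + 1, by linarith, ht0, ht1, hs0, hs1, by rw [htt, hss]; ring, hη0, hηt,
    hc0, by omega, fun n hn => ?_⟩
  obtain ⟨⟨⟨⟨⟨⟨F1, F2⟩, F3⟩, F4⟩, F5⟩, F6⟩, F7⟩ := hd₀ (n + 1) (by omega)
  set D : ℝ := ((n + 1 : ℕ) : ℝ) with hD
  have hD1 : (1 : ℝ) ≤ D := by rw [hD]; exact_mod_cast (by omega : 1 ≤ n + 1)
  have hexp : Real.exp (c * D) = Real.exp c ^ (n + 1) := by
    rw [hD, mul_comm, Real.exp_nat_mul]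
  refine ⟨F1, ?_, ?_⟩
  · have hqd : 0 < q ^ (n + 1) := by positivity
    rw [pow_zero, mul_one, div_pow, one_pow, mul_one_div, div_le_iff₀ hqd] at F3
    rw [div_pow, ← mul_div_assoc, div_le_iff₀ hqd] at F2
    rw [pow_zero, mul_one, one_mul, div_pow, div_le_iff₀ hqd, mul_pow] at F4
    rw [hexp]
    linarith
  · have hρd : 0 < ρ ^ (n + 1) := by positivity
    rw [div_pow, one_pow, mul_one_div, div_le_iff₀ hρd] at F5
    rw [pow_one, div_pow, ← mul_div_assoc, div_le_iff₀ hρd] at F6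
    have hM : q₁ ^ (n + 1) / 2 ≤ q₁ ^ (n + 1) - 1 := by
      have : (2 : ℝ) ≤ q₁ ^ (n + 1) := by
        calc (2 : ℝ) ≤ q₁ ^ 2 := hq₁sq.le
          _ ≤ q₁ ^ (n + 1) := pow_le_pow_right₀ (by linarith) F7
      linarith
    have hsh := share_big hs0 hs1 (n := n)
    rw [← hD] at hsh
    have hpos : 0 < s ^ (n + 1) / (3 * D) := by positivity
    have hfin : ρ ^ (n + 1) / (6 * D) ≤ shareG s n * (q₁ ^ (n + 1) - 1) := by
      calc ρ ^ (n + 1) / (6 * D) = s ^ (n + 1) / (3 * D) * (q₁ ^ (n + 1) / 2) := by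
            rw [hρ, mul_pow]; field_simp; norm_num
        _ ≤ shareG s n * (q₁ ^ (n + 1) - 1) := by
            apply mul_le_mul hsh hM (by positivity)
            exact (shareG_pos hs0).le
    refine le_trans ?_ hfin
    rw [hexp, le_div_iff₀ (by positivity)]
    nlinarith

end Pool.Agent.Helper7.RP
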