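import Pool.Agent.Helper7.RP.Prob

set_option autoImplicit false

/-!
Upper bound for the probability of a cone under a rotation invariant distribution.
-/

namespace Pool.Agent.Helper7.RP

open scoped RealInnerProductSpace ENNReal
open MeasureTheory Module Metric Set
open Pool.Agent.K3h76.RB Pool.Agent.K3h76.SD Pool.Agent.W396.Il

variable {n : ℕ}

lemma kap_ratio : kap n ≤ √((n : ℝ) + 1) * kap (n + 1) := by
  unfold kap
  have hx : (0 : ℝ) < (n : ℝ) / 2 + 1 := by positivity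
  have hG0 : 0 < Real.Gamma ((n : ℝ) / 2 + 1) := Real.Gamma_pos_of_pos hx
  have e3 : ((n + 1 : ℕ) : ℝ) / 2 + 1 = ((n : ℝ) / 2 + 1) + 1 / 2 := by push_cast; ring
  rw [e3]
  have hG1 : 0 < Real.Gamma ((n : ℝ) / 2 + 1 + 1 / 2) := Real.Gamma_pos_of_pos (by positivity)
  -- `Γ(x + 1/2) ≤ √x Γ(x)`
  have h1 : Real.Gamma ((n : ℝ) / 2 + 1 + 1 / 2) ≤
      √((n : ℝ) / 2 + 1) * Real.Gamma ((n : ℝ) / 2 + 1) := by
    have h2 := Real.Gamma_mul_add_mul_le_rpow_Gamma_mul_rpow_Gamma (s := (n : ℝ) / 2 + 1)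
      (t := (n : ℝ) / 2 + 1 + 1) (a := 1 / 2) (b := 1 / 2) hx (by linarith) (by norm_num)
      (by norm_num) (by norm_num)
    have e : (1 : ℝ) / 2 * ((n : ℝ) / 2 + 1) + 1 / 2 * ((n : ℝ) / 2 + 1 + 1) =
        (n : ℝ) / 2 + 1 + 1 / 2 := by ring
    rw [e, Real.Gamma_add_one hx.ne', Real.mul_rpow hx.le hG0.le, ← Real.sqrt_eq_rpow,
      ← Real.sqrt_eq_rpow] at h2
    calc _ ≤ _ := h2
      _ = √((n : ℝ) / 2 + 1) * (√(Real.Gamma ((n : ℝ) / 2 + 1)) *
          √(Real.Gamma ((n : ℝ) / 2 + 1))) := by ring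
      _ = _ := by rw [Real.mul_self_sqrt hG0.le]
  rw [← mul_div_assoc, div_le_div_iff₀ hG0 hG1, pow_succ]
  have hpi : 0 < √Real.pi := Real.sqrt_pos.2 Real.pi_pos
  have h3 : √((n : ℝ) / 2 + 1) ≤ √((n : ℝ) + 1) * √Real.pi := by
    rw [← Real.sqrt_mul (by positivity)]
    apply Real.sqrt_le_sqrt
    have := Real.pi_gt_three
    have hn0 : (0 : ℝ) ≤ n := Nat.cast_nonneg n
    nlinarith
  calc √Real.pi ^ n * Real.Gamma ((n : ℝ) / 2 + 1 + 1 / 2)
      ≤ √Real.pi ^ n * (√((n : ℝ) / 2 + 1) * Real.Gamma ((n : ℝ) / 2 + 1)) := by gcongr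
    _ ≤ √Real.pi ^ n * ((√((n : ℝ) + 1) * √Real.pi) * Real.Gamma ((n : ℝ) / 2 + 1)) := by gcongr
    _ = _ := by ring

/-- an upper bound for the share of the cone -/
lemma capG_up {c s : ℝ} (hc0 : 0 < c) (hs : 0 < s) (hcs : c ^ 2 + s ^ 2 = 1)
    (hn : 1 ≤ n) {m : Fs n} (hm : ‖m‖ = 1) :
    volume (capG c n m) ≤ ENNReal.ofReal (√((n : ℝ) + 1) * s ^ n) *
      volume (closedBall (0 : Fs n) 1) := by
  have hne : Nonempty (Fin n) := ⟨⟨0, by omega⟩⟩
  have h0 : volume (capG c n m) = volume (capG c n (e1 n)) := by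
    set φ : Fs n ≃ₗᵢ[ℝ] Fs n := Submodule.reflection (ℝ ∙ (e1 n - m))ᗮ with hφ
    have hφe : φ (e1 n) = m := Submodule.reflection_sub (by rw [norm_e1, hm])
    have hpre : φ ⁻¹' (capG c n m) = capG c n (e1 n) := by
      ext y
      simp only [capG, mem_preimage, mem_ofPred_eq, φ.norm_map]
      rw [← hφe, φ.inner_map_map]
    rw [← hpre]
    exact ((φ.measurePreserving).measure_preimage
      (capG_closed c n m).measurableSet.nullMeasurableSet).symm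
  rw [h0, ← (WithLp.volume_preserving_toLp ℝ (V n)).measure_preimage
    (capG_closed c n _).measurableSet.nullMeasurableSet]
  have h1 : (WithLp.toLp 2 : ℝ × V n → Fs n) ⁻¹' (capG c n (e1 n)) ⊆
      Icc (0 : ℝ) 1 ×ˢ closedBall (0 : V n) s := by
    rintro ⟨t, z⟩ ⟨h2, h3⟩
    rw [toLp_inner] at h3
    have h4 := toLp_norm_sq t z
    set r := ‖(WithLp.toLp 2 (t, z) : Fs n)‖ with hr
    have hr0 : 0 ≤ r := norm_nonneg _
    have ht0 : 0 ≤ t := (mul_nonneg hc0.le hr0).trans h3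
    have hr1 : r ^ 2 ≤ 1 := pow_le_one₀ hr0 h2
    have hz := sq_nonneg ‖z‖
    have ht1 : t ≤ 1 := by nlinarith
    have h5 : c ^ 2 * r ^ 2 ≤ t ^ 2 := by
      rw [← mul_pow]; exact pow_le_pow_left₀ (mul_nonneg hc0.le hr0) h3 2
    have h6 : ‖z‖ ^ 2 ≤ s ^ 2 := by nlinarith
    refine ⟨⟨ht0, ht1⟩, ?_⟩
    rw [mem_closedBall_zero_iff]
    exact le_of_sq_le_sq h6 hs.le
  refine (measure_mono h1).trans ?_
  rw [Measure.volume_eq_prod, Measure.prod_prod, Real.volume_Icc, EuclideanSpace.volume_closedBall,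
    Fintype.card_fin, ball_vol, ← ENNReal.ofReal_pow hs.le, sub_zero, ENNReal.ofReal_one, one_mul]
  have e1 : (√Real.pi ^ n / Real.Gamma ((n : ℝ) / 2 + 1)) = kap n := rfl
  rw [e1, ← ENNReal.ofReal_mul (by positivity), ← ENNReal.ofReal_mul (by positivity)]
  apply ENNReal.ofReal_le_ofReal
  have := kap_ratio (n := n)
  calc s ^ n * kap n ≤ s ^ n * (√((n : ℝ) + 1) * kap (n + 1)) := by gcongr
    _ = _ := by ring

section haar

variable [MeasurableSpace (Gr n)] [BorelSpace (Gr n)] (μ : Measure (Gr n))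
  [IsProbabilityMeasure μ] [μ.IsMulLeftInvariant]

/-- the probability to hit the cone around `u` -/
lemma hit_one {c s : ℝ} (hc0 : 0 < c) (hs : 0 < s) (hcs : c ^ 2 + s ^ 2 = 1)
    (hn : 1 ≤ n) {u : Fs n} (hu : ‖u‖ = 1) {x : Fs n} (hx : ‖x‖ = 1) :
    μ {g | c ≤ ⟪act n g⁻¹ x, u⟫} ≤ ENNReal.ofReal (√((n : ℝ) + 1) * s ^ n) := by
  set A : Set (Fs n) := {y | c * ‖y‖ ≤ ⟪y, u⟫} with hA
  have hAm : MeasurableSet A :=
    (isClosed_le (by fun_prop) (by fun_prop)).measurableSet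
  have hcone : ∀ (y : Fs n) (r : ℝ), 0 < r → (r • y ∈ A ↔ y ∈ A) := by
    intro y r hr
    show c * ‖r • y‖ ≤ ⟪r • y, u⟫ ↔ c * ‖y‖ ≤ ⟪y, u⟫
    rw [inner_smul_left, norm_smul, Real.norm_of_nonneg hr.le]
    simp only [conj_trivial]
    constructor
    · intro h
      by_contra hcon
      push Not at hcon
      have := mul_lt_mul_of_pos_left hcon hr
      linarith
    · intro h
      have := mul_le_mul_of_nonneg_left h hr.le
      linarith
  have h1 := haar_cone μ hAm hcone hx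
  have h2 : {g : Gr n | c ≤ ⟪act n g⁻¹ x, u⟫} = {g | act n g⁻¹ x ∈ A} := by
    ext g
    show c ≤ ⟪act n g⁻¹ x, u⟫ ↔ c * ‖act n g⁻¹ x‖ ≤ ⟪act n g⁻¹ x, u⟫
    rw [(act n g⁻¹).norm_map, hx, mul_one]
  rw [h2]
  set B : Set (Fs n) := closedBall (0 : Fs n) 1 with hB
  have hBt : volume B ≠ ⊤ := by
    rw [hB, ball_vol]
    exact ENNReal.ofReal_ne_top
  have hB0 : volume B ≠ 0 := by
    rw [hB, ball_vol]
    simpa using kap_pos (n + 1)
  have hAB : A ∩ B = capG c n u := by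
    ext y
    simp only [hA, hB, mem_inter_iff, mem_ofPred_eq, mem_closedBall_zero_iff, capG]
    exact and_comm
  have h4 := capG_up hc0 hs hcs hn hu
  rw [← hAB, ← h1] at h4
  exact (ENNReal.mul_le_mul_iff_left hB0 hBt).1 h4

end haar

end Pool.Agent.Helper7.RP
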