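import Pool.Graph.R_pool_sql_team_seeded_5cf16337.K3h76.RB.Final

set_option autoImplicit false

/-!
Polytopes with narrow normal cones at all but few of the generating points: the deterministic
part of the theorem on random polytopes.
-/

namespace Pool.Agent.Helper7.RP

open scoped RealInnerProductSpace
open Pool.Agent.K3h76.RB Pool.Agent.K3h76.SD Pool.Agent.W396.Il

variable {E : Type*} [NormedAddCommGroup E] [InnerProductSpace ℝ E]

/-- A point of a polytope has only normals which are normals of one of the vertices. -/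
lemma nml_vertex (P : Finset E) {x : E} (hx : x ∈ convexHull ℝ (P : Set E)) :
    ∃ p ∈ P, ∀ u, Nml (convexHull ℝ (P : Set E)) x u → Nml (convexHull ℝ (P : Set E)) p u := by
  classical
  rw [Finset.mem_convexHull'] at hx
  obtain ⟨w, hw0, hw1, hwx⟩ := hx
  obtain ⟨p, hp, hwp⟩ : ∃ p ∈ P, 0 < w p := by
    by_contra hcon
    push Not at hcon
    have : ∑ p ∈ P, w p ≤ 0 := Finset.sum_nonpos hcon
    linarith
  refine ⟨p, hp, fun u hu => ⟨hu.1, fun y hy => ?_⟩⟩
  have h1 := hu.2 y hy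
  refine h1.trans ?_
  have hle : ∀ r ∈ P, ⟪u, r⟫ ≤ ⟪u, x⟫ := fun r hr => hu.2 r (subset_convexHull ℝ _ hr)
  have hsum : ∑ r ∈ P, w r * ⟪u, r⟫ = ⟪u, x⟫ := by
    rw [← hwx, inner_sum]
    exact Finset.sum_congr rfl fun r _ => by rw [inner_smul_right]
  have hsum2 : ∑ r ∈ P, w r * (⟪u, x⟫ - ⟪u, r⟫) = 0 := by
    simp_rw [mul_sub]
    rw [Finset.sum_sub_distrib, hsum, ← Finset.sum_mul, hw1]
    ring
  have h2 := (Finset.sum_eq_zero_iff_of_nonneg (fun r hr =>
    mul_nonneg (hw0 r hr) (sub_nonneg.2 (hle r hr)))).1 hsum2 p hp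
  have h3 : ⟪u, x⟫ - ⟪u, p⟫ = 0 := by
    rcases mul_eq_zero.1 h2 with h | h
    · exact absurd h hwp.ne'
    · exact h
  linarith

/-- Polytopes with narrow normal cones at all generating points outside of `W`. -/
theorem cover_pts [FiniteDimensional ℝ E] {q : ℝ} {N : ℕ} (hcode : CodeR E N q) (P W : Finset E)
    (hKi : (interior (convexHull ℝ (P : Set E))).Nonempty)
    (h : ∀ p ∈ P, p ∈ W ∨ ∃ c : E, ‖c‖ = 1 ∧
      ∀ u, Nml (convexHull ℝ (P : Set E)) p u → 0 < ⟪c, u⟫ ∧ 1 - q ≤ ⟪c, u⟫ ^ 2) :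
    Cov (N + W.card) (convexHull ℝ (P : Set E)) := by
  classical
  obtain ⟨s, hs, hcode⟩ := hcode
  set K := convexHull ℝ (P : Set E) with hK
  have hKc : IsCompact K := P.finite_toSet.isCompact_convexHull ℝ
  choose U hU using fun x : E => exists_lit (K := K) hKi (x := x)
  have hcov := cover_of_lit (convex_convexHull ℝ _) hKc hKi (s ∪ W.image U) (by
    intro x hx
    obtain ⟨p, hp, hpx⟩ := nml_vertex P hx
    have hlit : ∃ u ∈ s ∪ W.image U, Lit K p u := by
      rcases h p hp with hw | ⟨e, he, hn⟩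
      · exact ⟨U p, Finset.mem_union_right _ (Finset.mem_image_of_mem _ hw), hU p⟩
      · obtain ⟨u, hu, hu1, hu2⟩ := hcode e (by
          rintro rfl
          simp at he)
        refine ⟨u, Finset.mem_union_left _ hu, lit_of_close he hn hu1 ?_⟩
        rw [he] at hu2
        linarith
    obtain ⟨u, hu, hl⟩ := hlit
    exact ⟨u, hu, fun v hv => hl v (hpx v hv)⟩)
  obtain ⟨T, hT, hcov⟩ := hcov
  refine ⟨T, hT.trans ((Finset.card_union_le _ _).trans (add_le_add hs ?_)), hcov⟩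
  exact Finset.card_image_le

section
variable {ι : Type*} [Fintype ι]

/-- all points with index in `S` are longer than all the others -/
def Upper (x : ι → E) (S : Finset ι) : Prop := ∀ i ∈ S, ∀ j, j ∉ S → ‖x j‖ < ‖x i‖

/-- An upper set with at least `M` elements, such that fewer than `M` points are longer than its
shortest one. -/
lemma exists_upper (x : ι → E) {M : ℕ} (hM : 1 ≤ M) (hM2 : M ≤ Fintype.card ι) :
    ∃ (S W : Finset ι) (R : ℝ), M ≤ S.card ∧ Upper x S ∧ W.card < M ∧ 0 ≤ R ∧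
      (∀ i ∈ S, R ≤ ‖x i‖) ∧ (∀ i, i ∉ W → ‖x i‖ ≤ R) ∧
      (∀ S' : Finset ι, M ≤ S'.card → Upper x S' → S ⊆ S') := by
  classical
  have hex : ∃ k, ∃ S : Finset ι, S.card = k ∧ M ≤ S.card ∧ Upper x S :=
    ⟨_, Finset.univ, rfl, by simpa using hM2, fun i _ j hj => absurd (Finset.mem_univ j) hj⟩
  obtain ⟨S, hSk, hSM, hSU⟩ := Nat.find_spec hex
  have hmin : ∀ S' : Finset ι, M ≤ S'.card → Upper x S' → S.card ≤ S'.card := by
    intro S' h1 h2
    rw [hSk]
    exact Nat.find_min' hex ⟨S', rfl, h1, h2⟩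
  have hSne : S.Nonempty := by
    rw [← Finset.card_pos]
    omega
  obtain ⟨i₀, hi₀, hi₀min⟩ := S.exists_min_image (fun i => ‖x i‖) hSne
  set W : Finset ι := Finset.univ.filter fun i => ‖x i₀‖ < ‖x i‖ with hW
  have hWU : Upper x W := by
    intro i hi j hj
    rw [hW, Finset.mem_filter] at hi hj
    have h2 : ¬ ‖x i₀‖ < ‖x j‖ := fun h => hj ⟨Finset.mem_univ _, h⟩
    push Not at h2
    exact h2.trans_lt hi.2
  have hWS : W ⊂ S := by
    rw [Finset.ssubset_iff_of_subset]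
    · exact ⟨i₀, hi₀, by simp [hW]⟩
    · intro i hi
      rw [hW, Finset.mem_filter] at hi
      by_contra hcon
      exact absurd (hSU i₀ hi₀ i hcon) (not_lt.2 hi.2.le)
  refine ⟨S, W, ‖x i₀‖, hSM, hSU, ?_, norm_nonneg _, hi₀min, ?_, ?_⟩
  · by_contra hcon
    push Not at hcon
    have h1 := hmin W hcon hWU
    have h2 := Finset.card_lt_card hWS
    omega
  · intro i hi
    by_contra hcon
    push Not at hcon
    exact hi (by simp [hW, hcon])
  · intro S' h1 h2
    have h3 := hmin S' h1 h2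
    by_contra hcon
    obtain ⟨i, hi, hi'⟩ := Finset.not_subset.1 hcon
    have hsub : S' ⊆ S := by
      intro j hj
      by_contra hj'
      exact absurd (hSU i hi j hj') (not_lt.2 (h2 j hj i hi').le)
    have h4 : S' = S := Finset.eq_of_subset_of_card_le hsub h3
    exact hi' (h4 ▸ hi)

/-- the points `g (x i)` -/
def pts [DecidableEq E] (Γ : Finset (E ≃ₗᵢ[ℝ] E)) (x : ι → E) : Finset E :=
  (Γ ×ˢ (Finset.univ : Finset ι)).image fun p => p.1 (x p.2)

variable [FiniteDimensional ℝ E] [DecidableEq E]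

/-- The deterministic part. -/
theorem cover_upper {q : ℝ} {N M : ℕ} (hcode : CodeR E N q) (Γ : Finset (E ≃ₗᵢ[ℝ] E))
    (hΓ : Γ.Nonempty) (x : ι → E) (Λ : Finset E) {η t : ℝ} (hM : 1 ≤ M) (hηt : η < t)
    (hq : 1 - q ≤ (t - η) ^ 2)
    (hΛ : ∀ y : E, ‖y‖ = 1 → ∃ c ∈ Λ, ‖y - c‖ ≤ η)
    (hgood : ∀ u ∈ Λ, ∀ S : Finset ι, M ≤ S.card → Upper x S → ∃ i ∈ S, t * ‖x i‖ ≤ ⟪u, x i⟫)
    (hKi : (interior (convexHull ℝ (pts Γ x : Set E))).Nonempty) :
    Cov (N + (Γ.card * M + 1)) (convexHull ℝ (pts Γ x : Set E)) := by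
  classical
  have hη : 0 < t - η := by linarith
  -- monotonicity
  have mono : ∀ {a b : ℕ}, a ≤ b → Cov a (convexHull ℝ (pts Γ x : Set E)) →
      Cov b (convexHull ℝ (pts Γ x : Set E)) := by
    rintro a b hab ⟨T, hT, hc⟩
    exact ⟨T, hT.trans hab, hc⟩
  rcases lt_or_ge (Fintype.card ι) M with hlt | hge
  · -- few points
    have h1 := cover_pts hcode (pts Γ x) (pts Γ x) hKi (fun p hp => Or.inl hp)
    refine mono ?_ h1
    have h2 : (pts Γ x).card ≤ Γ.card * Fintype.card ι := by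
      refine Finset.card_image_le.trans ?_
      rw [Finset.card_product, Finset.card_univ]
    have h3 : Γ.card * Fintype.card ι ≤ Γ.card * M := Nat.mul_le_mul_left _ hlt.le
    omega
  obtain ⟨S, W, R, hSM, hSU, hWM, hR0, hSR, hWR, -⟩ := exists_upper x hM hge
  set W' : Finset E := insert 0 ((Γ ×ˢ W).image fun p => p.1 (x p.2)) with hW'
  have hW'card : W'.card ≤ Γ.card * M + 1 := by
    refine (Finset.card_insert_le _ _).trans ?_
    have h1 : ((Γ ×ˢ W).image fun p => p.1 (x p.2)).card ≤ Γ.card * W.card := by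
      refine Finset.card_image_le.trans ?_
      rw [Finset.card_product]
    have h3 : Γ.card * W.card ≤ Γ.card * M := Nat.mul_le_mul_left _ hWM.le
    omega
  refine mono (Nat.add_le_add_left hW'card N) (cover_pts hcode (pts Γ x) W' hKi ?_)
  intro p hp
  rw [pts, Finset.mem_image] at hp
  obtain ⟨⟨g, i⟩, hgi, rfl⟩ := hp
  rw [Finset.mem_product] at hgi
  by_cases hiW : i ∈ W
  · left
    rw [hW']
    exact Finset.mem_insert_of_mem (Finset.mem_image.2
      ⟨(g, i), Finset.mem_product.2 ⟨hgi.1, hiW⟩, rfl⟩)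
  by_cases hx0 : g (x i) = 0
  · left
    rw [hx0, hW']
    exact Finset.mem_insert_self _ _
  rcases hR0.eq_or_lt with hR | hR
  · left
    have h1 : x i = 0 := by
      have := hWR i hiW
      rw [← hR] at this
      exact norm_eq_zero.1 (le_antisymm this (norm_nonneg _))
    rw [hW']
    simp [h1]
  · right
    set K := convexHull ℝ (pts Γ x : Set E) with hK
    obtain ⟨g₀, hg₀⟩ := hΓ
    -- a lower bound of the support function
    have hsup : ∀ v : E, ‖v‖ = 1 → ∃ y ∈ K, (t - η) * R ≤ ⟪v, y⟫ := by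
      intro v hv
      obtain ⟨c, hc, hvc⟩ := hΛ (g₀.symm v) (by rw [g₀.symm.norm_map, hv])
      obtain ⟨j, hj, hj2⟩ := hgood c hc S hSM hSU
      refine ⟨g₀ (x j), subset_convexHull ℝ _ ?_, ?_⟩
      · rw [Finset.mem_coe, pts, Finset.mem_image]
        exact ⟨(g₀, j), Finset.mem_product.2 ⟨hg₀, Finset.mem_univ _⟩, rfl⟩
      · have h1 : ⟪v, g₀ (x j)⟫ = ⟪g₀.symm v, x j⟫ := by
          rw [← g₀.inner_map_map (g₀.symm v) (x j), g₀.apply_symm_apply]
        have h2 : ⟪g₀.symm v, x j⟫ = ⟪c, x j⟫ + ⟪g₀.symm v - c, x j⟫ := by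
          rw [inner_sub_left]; ring
        have h3 : -(η * ‖x j‖) ≤ ⟪g₀.symm v - c, x j⟫ := by
          have := abs_real_inner_le_norm (g₀.symm v - c) (x j)
          have h4 := neg_abs_le ⟪g₀.symm v - c, x j⟫
          have h5 : ‖g₀.symm v - c‖ * ‖x j‖ ≤ η * ‖x j‖ :=
            mul_le_mul_of_nonneg_right hvc (norm_nonneg _)
          linarith
        have h6 : (t - η) * R ≤ (t - η) * ‖x j‖ := mul_le_mul_of_nonneg_left (hSR j hj) hη.le
        rw [h1, h2]
        linarith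
    have hn : ‖g (x i)‖ ≤ R := by
      rw [g.norm_map]
      exact hWR i hiW
    have hpos : 0 < ‖g (x i)‖ := norm_pos_iff.2 hx0
    refine ⟨(‖g (x i)‖)⁻¹ • g (x i), by
      rw [norm_smul, norm_inv, norm_norm, inv_mul_cancel₀ hpos.ne'], fun u hu => ?_⟩
    obtain ⟨y, hy, hy2⟩ := hsup u hu.1
    have h1 : (t - η) * R ≤ ⟪u, g (x i)⟫ := hy2.trans (hu.2 y hy)
    have h2 : t - η ≤ ⟪(‖g (x i)‖)⁻¹ • g (x i), u⟫ := by
      rw [inner_smul_left, real_inner_comm]
      simp only [conj_trivial]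
      rw [inv_mul_eq_div, le_div_iff₀ hpos]
      refine le_trans ?_ h1
      exact mul_le_mul_of_nonneg_left hn hη.le
    exact ⟨hη.trans_le h2, hq.trans (pow_le_pow_left₀ hη.le h2 2)⟩

end

end Pool.Agent.Helper7.RP
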