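import Pool.Agent.Helper7.RP.Peel

set_option autoImplicit false

/-!
The lower bound: the deterministic part.
-/

namespace Pool.Agent.Helper7.RP

open scoped RealInnerProductSpace
open Metric Set

variable {F : Type*} [NormedAddCommGroup F] [InnerProductSpace ℝ F]
variable {ι : Type*} [Fintype ι] [DecidableEq ι]

omit [DecidableEq ι] in
/-- A covering with few translates: many points are lit from one direction, so that each of them
is helped by another point. -/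
lemma det_low {k : ℕ} (x : ι → F) (hx : ∀ i, ‖x i‖ = 1) (hinj : Function.Injective x)
    (T : Finset F) (hT : convexHull ℝ (range x) ⊆
      ⋃ t ∈ T, (fun y => t + y) '' interior (convexHull ℝ (range x)))
    (hk : T.card * k < Fintype.card ι) : ∃ w : F, ‖w‖ = 1 ∧ ∃ a b : Fin k → ι,
      Function.Injective a ∧ ∀ l, b l ≠ a l ∧ 0 < ⟪x (a l), w⟫ ∧
        1 < ⟪x (a l), x (b l)⟫ - ⟪x (a l), w⟫ * ⟪w, x (b l)⟫ + ⟪x (a l), w⟫ ^ 2 := by
  classical
  set K := convexHull ℝ (range x) with hK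
  have hmem : ∀ i, x i ∈ K := fun i => subset_convexHull ℝ _ (mem_range_self i)
  have hex : ∀ i, ∃ t ∈ T, x i - t ∈ interior K := by
    intro i
    have h1 := hT (hmem i)
    simp only [mem_iUnion] at h1
    obtain ⟨t, ht, y, hy, hyt⟩ := h1
    refine ⟨t, ht, ?_⟩
    have : x i - t = y := by
      rw [← hyt]; simp
    rw [this]
    exact hy
  choose f hf hfi using hex
  obtain ⟨τ, hτ, hfib⟩ := Finset.exists_lt_card_fiber_of_mul_lt_card_of_maps_to
    (s := (Finset.univ : Finset ι)) (t := T) (f := f) (fun i _ => hf i) (n := k)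
    (by rwa [Finset.card_univ])
  set S := Finset.univ.filter (fun i => f i = τ) with hS
  have hSi : ∀ i ∈ S, x i - τ ∈ interior K := by
    intro i hi
    rw [hS, Finset.mem_filter] at hi
    rw [← hi.2]
    exact hfi i
  -- the basic fact on normals
  have hnorm : ∀ i ∈ S, ∀ v : F, v ≠ 0 → (∀ j, ⟪v, x j⟫ ≤ ⟪v, x i⟫) → 0 < ⟪v, τ⟫ := by
    intro i hi v hv hle
    obtain ⟨ε, hε, hball⟩ := Metric.isOpen_iff.1 isOpen_interior _ (hSi i hi)
    have hv0 : 0 < ‖v‖ := norm_pos_iff.2 hv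
    have h1 : (x i - τ) + (ε / 2 / ‖v‖) • v ∈ K := by
      apply interior_subset
      apply hball
      rw [Metric.mem_ball, dist_eq_norm, add_sub_cancel_left, norm_smul,
        Real.norm_of_nonneg (by positivity), div_mul_cancel₀ _ hv0.ne']
      linarith
    have h2 : K ⊆ {y | ⟪v, y⟫ ≤ ⟪v, x i⟫} := by
      refine convexHull_min ?_ ?_
      · rintro _ ⟨j, rfl⟩
        exact hle j
      · exact (convex_halfSpace_le (f := fun y : F => ⟪v, y⟫)
          ⟨fun a b => inner_add_right _ _ _, fun r a => inner_smul_right _ _ _⟩ _)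
    have h3 : ⟪v, (x i - τ) + (ε / 2 / ‖v‖) • v⟫ ≤ ⟪v, x i⟫ := h2 h1
    rw [inner_add_right, inner_sub_right, inner_smul_right, real_inner_self_eq_norm_sq] at h3
    have h4 : 0 < ε / 2 / ‖v‖ * ‖v‖ ^ 2 := by positivity
    linarith
  have hpos : ∀ i ∈ S, 0 < ⟪x i, τ⟫ := by
    intro i hi
    refine hnorm i hi (x i) ?_ ?_
    · intro h
      have := hx i
      rw [h, norm_zero] at this
      exact zero_ne_one this
    · intro j
      have h1 := real_inner_le_norm (x i) (x j)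
      rw [hx i, hx j] at h1
      rw [real_inner_self_eq_norm_sq, hx i]
      linarith
  have hSne : S.Nonempty := by
    rw [← Finset.card_pos]
    omega
  obtain ⟨i₀, hi₀⟩ := hSne
  have hτ0 : τ ≠ 0 := by
    intro h
    have := hpos i₀ hi₀
    rw [h, inner_zero_right] at this
    exact lt_irrefl _ this
  have hτn : 0 < ‖τ‖ := norm_pos_iff.2 hτ0
  set w : F := (‖τ‖)⁻¹ • τ with hw
  have hw1 : ‖w‖ = 1 := by rw [hw, norm_smul, norm_inv, norm_norm, inv_mul_cancel₀ hτn.ne']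
  have hτw : τ = ‖τ‖ • w := by rw [hw, smul_smul, mul_inv_cancel₀ hτn.ne', one_smul]
  have hposw : ∀ i ∈ S, 0 < ⟪x i, w⟫ := by
    intro i hi
    rw [hw, inner_smul_right]
    exact mul_pos (by positivity) (hpos i hi)
  -- the helpers
  have hhelp : ∀ i ∈ S, x i ≠ w → ∃ j, j ≠ i ∧
      1 < ⟪x i, x j⟫ - ⟪x i, w⟫ * ⟪w, x j⟫ + ⟪x i, w⟫ ^ 2 := by
    intro i hi hiw
    set v : F := x i - ⟪x i, w⟫ • w with hv
    have hvw : ⟪v, w⟫ = 0 := by
      rw [hv, inner_sub_left, inner_smul_left, real_inner_self_eq_norm_sq, hw1]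
      simp
    have hvx : ∀ j, ⟪v, x j⟫ = ⟪x i, x j⟫ - ⟪x i, w⟫ * ⟪w, x j⟫ := by
      intro j
      rw [hv, inner_sub_left, inner_smul_left]
      simp
    have hvi : ⟪v, x i⟫ = 1 - ⟪x i, w⟫ ^ 2 := by
      rw [hvx, real_inner_self_eq_norm_sq, hx i, real_inner_comm w (x i)]
      ring
    have hv0 : v ≠ 0 := by
      intro h
      have h1 : x i = ⟪x i, w⟫ • w := by
        rw [hv] at h
        exact sub_eq_zero.1 h
      have h2 : ‖x i‖ = |⟪x i, w⟫| := by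
        conv_lhs => rw [h1]
        rw [norm_smul, hw1, mul_one, Real.norm_eq_abs]
      rw [hx i, abs_of_pos (hposw i hi)] at h2
      rw [← h2, one_smul] at h1
      exact hiw h1
    have hnot : ¬ ∀ j, ⟪v, x j⟫ ≤ ⟪v, x i⟫ := by
      intro hle
      have h1 := hnorm i hi v hv0 hle
      rw [hτw, inner_smul_right, hvw, mul_zero] at h1
      exact lt_irrefl _ h1
    push Not at hnot
    obtain ⟨j, hj⟩ := hnot
    refine ⟨j, ?_, ?_⟩
    · rintro rfl
      exact lt_irrefl _ hj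
    · rw [hvi, hvx] at hj
      linarith
  -- leave out the point `w`
  set S' := S.filter (fun i => x i ≠ w) with hS'
  have hS'c : k ≤ S'.card := by
    have h1 : (S.filter (fun i => x i = w)).card ≤ 1 := by
      rw [Finset.card_le_one]
      intro i hi j hj
      rw [Finset.mem_filter] at hi hj
      exact hinj (hi.2.trans hj.2.symm)
    have h2 := Finset.card_filter_add_card_filter_not (s := S) (fun i => x i = w)
    have h3 : (S.filter (fun i => ¬ x i = w)).card = S'.card := rfl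
    omega
  obtain ⟨S'', hS''S, hS''c⟩ := Finset.exists_subset_card_eq hS'c
  set e : Fin k ≃ S'' := (Finset.equivFinOfCardEq hS''c).symm with he
  have hin : ∀ l : Fin k, (e l : ι) ∈ S ∧ x (e l : ι) ≠ w := by
    intro l
    have h1 := hS''S (e l).2
    rw [hS', Finset.mem_filter] at h1
    exact h1
  choose b hb1 hb2 using fun l : Fin k => hhelp (e l : ι) (hin l).1 (hin l).2
  exact ⟨w, hw1, fun l => (e l : ι), b, fun l l' h => e.injective (Subtype.ext h),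
    fun l => ⟨hb1 l, hposw _ (hin l).1, hb2 l⟩⟩

omit [Fintype ι] [DecidableEq ι] in
/-- passing to a nearby direction -/
lemma robust {η : ℝ} {x z w u : F} (hx : ‖x‖ = 1) (hz : ‖z‖ = 1) (hw : ‖w‖ = 1) (hu : ‖u‖ = 1)
    (hwu : ‖w - u‖ ≤ η) (hpos : 0 < ⟪x, w⟫)
    (h : 1 < ⟪x, z⟫ - ⟪x, w⟫ * ⟪w, z⟫ + ⟪x, w⟫ ^ 2) :
    -η ≤ ⟪x, u⟫ ∧ 1 - 4 * η < ⟪x, z⟫ - ⟪x, u⟫ * ⟪u, z⟫ + ⟪x, u⟫ ^ 2 := by
  have h1 : |⟪x, w⟫ - ⟪x, u⟫| ≤ η := by
    rw [← inner_sub_right]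
    refine (abs_real_inner_le_norm _ _).trans ?_
    rw [hx, one_mul]
    exact hwu
  have h2 : |⟪w, z⟫ - ⟪u, z⟫| ≤ η := by
    rw [← inner_sub_left]
    refine (abs_real_inner_le_norm _ _).trans ?_
    rw [hz, mul_one]
    exact hwu
  have hxw : |⟪x, w⟫| ≤ 1 := by
    have := abs_real_inner_le_norm x w
    rwa [hx, hw, one_mul] at this
  have hxu : |⟪x, u⟫| ≤ 1 := by
    have := abs_real_inner_le_norm x u
    rwa [hx, hu, one_mul] at this
  have hwz : |⟪w, z⟫| ≤ 1 := by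
    have := abs_real_inner_le_norm w z
    rwa [hw, hz, one_mul] at this
  have hη : 0 ≤ η := (norm_nonneg _).trans hwu
  rw [abs_le] at h1 h2 hxw hxu hwz
  refine ⟨by linarith, ?_⟩
  -- `a b - a' b' = (a - a') b + a' (b - b')`
  have h3 : |⟪x, w⟫ * ⟪w, z⟫ - ⟪x, u⟫ * ⟪u, z⟫| ≤ 2 * η := by
    have e : ⟪x, w⟫ * ⟪w, z⟫ - ⟪x, u⟫ * ⟪u, z⟫ =
        (⟪x, w⟫ - ⟪x, u⟫) * ⟪w, z⟫ + ⟪x, u⟫ * (⟪w, z⟫ - ⟪u, z⟫) := by ring
    rw [e]
    refine (abs_add_le _ _).trans ?_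
    rw [abs_mul, abs_mul]
    have a1 : |⟪x, w⟫ - ⟪x, u⟫| ≤ η := abs_le.2 h1
    have a2 : |⟪w, z⟫| ≤ 1 := abs_le.2 hwz
    have a3 : |⟪x, u⟫| ≤ 1 := abs_le.2 hxu
    have a4 : |⟪w, z⟫ - ⟪u, z⟫| ≤ η := abs_le.2 h2
    nlinarith [abs_nonneg (⟪x, w⟫ - ⟪x, u⟫), abs_nonneg ⟪w, z⟫, abs_nonneg ⟪x, u⟫,
      abs_nonneg (⟪w, z⟫ - ⟪u, z⟫)]
  have h4 : |⟪x, w⟫ ^ 2 - ⟪x, u⟫ ^ 2| ≤ 2 * η := by
    have e : ⟪x, w⟫ ^ 2 - ⟪x, u⟫ ^ 2 = (⟪x, w⟫ - ⟪x, u⟫) * (⟪x, w⟫ + ⟪x, u⟫) := by ring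
    rw [e, abs_mul]
    have a1 : |⟪x, w⟫ - ⟪x, u⟫| ≤ η := abs_le.2 h1
    have a2 : |⟪x, w⟫ + ⟪x, u⟫| ≤ 2 := abs_le.2 ⟨by linarith, by linarith⟩
    nlinarith [abs_nonneg (⟪x, w⟫ - ⟪x, u⟫), abs_nonneg (⟪x, w⟫ + ⟪x, u⟫)]
  rw [abs_le] at h3 h4
  linarith

omit [Fintype ι] in
/-- A cycle of helpers consists of points which are close to each other. -/
lemma no_cycle {k : ℕ} {η σ : ℝ} (hη : 0 ≤ η) (hσ : 0 ≤ σ) (hσk : 8 * η * k ≤ σ ^ 2)
    {u : F} (hu : ‖u‖ = 1) (x : ι → F) (hx : ∀ i, ‖x i‖ = 1) (a b : Fin k → ι)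
    (ha : Function.Injective a) (C : Finset (Fin k)) (hC : C.image b = C.image a)
    (h1 : ∀ l ∈ C, -η ≤ ⟪x (a l), u⟫)
    (h2 : ∀ l ∈ C, 1 - 4 * η <
      ⟪x (a l), x (b l)⟫ - ⟪x (a l), u⟫ * ⟪u, x (b l)⟫ + ⟪x (a l), u⟫ ^ 2) :
    ∀ l ∈ C, 1 - (σ ^ 2 + 2 * σ + 4 * η) / 2 ≤ ⟪x (a l), x (b l)⟫ := by
  classical
  intro l₀ hl₀
  set h : ι → ℝ := fun i => ⟪x i, u⟫ with hh
  set y : ι → F := fun i => x i - h i • u with hy
  have hy2 : ∀ i, ‖y i‖ ^ 2 = 1 - h i ^ 2 := by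
    intro i
    rw [hy, hh]
    simp only
    rw [norm_sub_sq_real, hx, inner_smul_right, norm_smul, hu, Real.norm_eq_abs, mul_one, sq_abs]
    ring
  have hyy : ∀ i j, ⟪y i, y j⟫ = ⟪x i, x j⟫ - h i * h j := by
    intro i j
    rw [hy, hh]
    simp only
    rw [inner_sub_left, inner_sub_right, inner_sub_right, inner_smul_left, inner_smul_right,
      inner_smul_left, inner_smul_right, real_inner_self_eq_norm_sq, hu, real_inner_comm u (x j)]
    simp only [conj_trivial]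
    ring
  set G : Fin k → ℝ := fun l => ‖y (a l) - y (b l)‖ ^ 2 with hG
  have hG1 : ∀ l ∈ C, G l ≤ (‖y (b l)‖ ^ 2 - ‖y (a l)‖ ^ 2) + 8 * η := by
    intro l hl
    have h3 := h2 l hl
    rw [hG]
    simp only
    rw [norm_sub_sq_real, hyy, hy2, hy2]
    have e1 : ⟪x (a l), u⟫ = h (a l) := rfl
    have e2 : ⟪u, x (b l)⟫ = h (b l) := real_inner_comm _ _
    rw [e1, e2] at h3
    linarith
  have hbinj : Set.InjOn b C := by
    rw [← Finset.card_image_iff, hC, Finset.card_image_of_injective C ha]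
  have hsum : ∑ l ∈ C, ‖y (b l)‖ ^ 2 = ∑ l ∈ C, ‖y (a l)‖ ^ 2 := by
    rw [← Finset.sum_image (f := fun i => ‖y i‖ ^ 2) (fun l hl l' hl' hll => hbinj hl hl' hll),
      hC, Finset.sum_image (fun l _ l' _ hll => ha hll)]
  have hGsum : ∑ l ∈ C, G l ≤ 8 * η * k := by
    refine (Finset.sum_le_sum hG1).trans ?_
    rw [Finset.sum_add_distrib, Finset.sum_sub_distrib, hsum, sub_self, zero_add,
      Finset.sum_const, nsmul_eq_mul]
    have h3 : (C.card : ℝ) ≤ k := by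
      have := C.card_le_univ
      rw [Fintype.card_fin] at this
      exact_mod_cast this
    nlinarith
  have hG0 : G l₀ ≤ σ ^ 2 := by
    refine le_trans ?_ (hGsum.trans hσk)
    exact Finset.single_le_sum (f := G) (fun l _ => sq_nonneg _) hl₀
  have hyle : ∀ i, ‖y i‖ ≤ 1 := by
    intro i
    have h3 := hy2 i
    nlinarith [norm_nonneg (y i), sq_nonneg (h i)]
  set p := a l₀ with hp
  set q := b l₀ with hq
  have hGn : ‖y p - y q‖ ≤ σ := by
    by_contra hcon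
    push Not at hcon
    have : σ ^ 2 < ‖y p - y q‖ ^ 2 := pow_lt_pow_left₀ hcon hσ (by norm_num)
    exact absurd hG0 (not_le.2 this)
  -- the heights
  have hhp : -η ≤ h p := h1 l₀ hl₀
  have hhq : -η ≤ h q := by
    have h3 : q ∈ C.image a := by
      rw [← hC]
      exact Finset.mem_image_of_mem b hl₀
    obtain ⟨l, hl, hlq⟩ := Finset.mem_image.1 h3
    rw [← hlq]
    exact h1 l hl
  have hh1 : ∀ i, |h i| ≤ 1 := by
    intro i
    have := abs_real_inner_le_norm (x i) u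
    rwa [hx, hu, one_mul] at this
  have hdiff : |h p ^ 2 - h q ^ 2| ≤ 2 * σ := by
    have e : h p ^ 2 - h q ^ 2 = (‖y q‖ - ‖y p‖) * (‖y q‖ + ‖y p‖) := by
      have h3 := hy2 p
      have h4 := hy2 q
      linarith
    rw [e, abs_mul]
    have h3 : |‖y q‖ - ‖y p‖| ≤ σ := by
      refine (abs_norm_sub_norm_le _ _).trans ?_
      rw [norm_sub_rev]
      exact hGn
    have h4 : |‖y q‖ + ‖y p‖| ≤ 2 := by
      rw [abs_of_nonneg (by positivity)]
      linarith [hyle p, hyle q]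
    nlinarith [abs_nonneg (‖y q‖ - ‖y p‖), abs_nonneg (‖y q‖ + ‖y p‖)]
  have hsq : (h p - h q) ^ 2 ≤ 2 * σ + 4 * η := by
    have h3 := hh1 p
    have h4 := hh1 q
    rw [abs_le] at h3 h4 hdiff
    rcases le_total (h p) (h q) with h5 | h5
    · have h6 : (h p - h q) ^ 2 ≤ (h q - h p) * (h q + h p + 2 * η) := by nlinarith
      nlinarith
    · have h6 : (h p - h q) ^ 2 ≤ (h p - h q) * (h q + h p + 2 * η) := by nlinarith
      nlinarith
  have hfin : ‖x p - x q‖ ^ 2 = ‖y p - y q‖ ^ 2 + (h p - h q) ^ 2 := by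
    rw [norm_sub_sq_real, norm_sub_sq_real, hyy, hy2, hy2, hx, hx]
    ring
  have hin : ‖x p - x q‖ ^ 2 = 2 - 2 * ⟪x p, x q⟫ := by
    rw [norm_sub_sq_real, hx, hx]
    ring
  have hG2 : ‖y p - y q‖ ^ 2 ≤ σ ^ 2 := hG0
  linarith

end Pool.Agent.Helper7.RP
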