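import Pool.Agent.Helper7.RP.Cap

set_option autoImplicit false

/-!
The probability that a point is helped by another one.
-/

namespace Pool.Agent.Helper7.RP

open scoped RealInnerProductSpace ENNReal
open MeasureTheory Module Metric Set
open Pool.Agent.K3h76.RB Pool.Agent.K3h76.SD Pool.Agent.W396.Il

/-- finitely many directions in the plane -/
lemma circle_net {κ : ℝ} (hκ : κ < 1) : ∃ Θ : Finset (ℝ × ℝ),
    (∀ p ∈ Θ, p.1 ^ 2 + p.2 ^ 2 = 1) ∧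
    ∀ a b r : ℝ, 0 ≤ r → r ^ 2 = a ^ 2 + b ^ 2 → ∃ p ∈ Θ, κ * r ≤ a * p.1 + b * p.2 := by
  classical
  set δ : ℝ := √(2 * (1 - κ)) with hδ
  have hδ0 : 0 < δ := Real.sqrt_pos.2 (by linarith)
  have hδ2 : δ ^ 2 = 2 * (1 - κ) := Real.sq_sqrt (by linarith)
  obtain ⟨s, -, hs1, hs⟩ := net_sphere (E := EuclideanSpace ℝ (Fin 2)) δ hδ0
  have hkey : ∀ x : EuclideanSpace ℝ (Fin 2), ‖x‖ ^ 2 = x 0 ^ 2 + x 1 ^ 2 := by
    intro x
    rw [EuclideanSpace.norm_sq_eq]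
    simp
  have hin : ∀ x y : EuclideanSpace ℝ (Fin 2), ⟪x, y⟫ = x 0 * y 0 + x 1 * y 1 := by
    intro x y
    rw [PiLp.inner_apply]
    simp [mul_comm]
  refine ⟨s.image fun v => (v 0, v 1), ?_, ?_⟩
  · intro p hp
    rw [Finset.mem_image] at hp
    obtain ⟨v, hv, rfl⟩ := hp
    have := hkey v
    rw [hs1 v hv] at this
    simp only
    linarith
  · have hunit : ∀ a b : ℝ, a ^ 2 + b ^ 2 = 1 → ∃ v ∈ s, κ ≤ a * v 0 + b * v 1 := by
      intro a b hab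
      set x : EuclideanSpace ℝ (Fin 2) := !₂[a, b] with hx
      have h0 : x 0 = a := by simp [hx]
      have h1 : x 1 = b := by simp [hx]
      have hx1 : ‖x‖ = 1 := by
        have := hkey x
        rw [h0, h1, hab] at this
        nlinarith [norm_nonneg x]
      obtain ⟨v, hv, hxv⟩ := hs x hx1
      refine ⟨v, hv, ?_⟩
      have h2 : ‖x - v‖ ^ 2 ≤ δ ^ 2 := pow_le_pow_left₀ (norm_nonneg _) hxv 2
      rw [norm_sub_sq_real, hx1, hs1 v hv, hδ2, hin, h0, h1] at h2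
      linarith
    intro a b r hr hab
    rcases hr.eq_or_lt with hr0 | hr0
    · obtain ⟨v, hv, -⟩ := hunit 1 0 (by norm_num)
      refine ⟨_, Finset.mem_image_of_mem _ hv, ?_⟩
      have ha : a = 0 := by nlinarith [sq_nonneg a, sq_nonneg b]
      have hb : b = 0 := by nlinarith [sq_nonneg a, sq_nonneg b]
      rw [← hr0, ha, hb]
      simp
    · obtain ⟨v, hv, hv2⟩ := hunit (a / r) (b / r) (by
        rw [div_pow, div_pow, ← add_div, ← hab, div_self (by positivity)])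
      refine ⟨_, Finset.mem_image_of_mem _ hv, ?_⟩
      have := mul_le_mul_of_nonneg_right hv2 hr
      simp only
      calc κ * r ≤ (a / r * v 0 + b / r * v 1) * r := this
        _ = a * v 0 + b * v 1 := by field_simp

variable {n : ℕ}

section haar

variable [MeasurableSpace (Gr n)] [BorelSpace (Gr n)] (μ : Measure (Gr n))
  [IsProbabilityMeasure μ] [μ.IsMulLeftInvariant]

lemma hit_vec {c s : ℝ} (hc0 : 0 < c) (hs : 0 < s) (hcs : c ^ 2 + s ^ 2 = 1)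
    (hn : 1 ≤ n) {v : Fs n} (hv : ‖v‖ ≤ 1) {x : Fs n} (hx : ‖x‖ = 1) :
    μ {g | c ≤ ⟪act n g⁻¹ x, v⟫} ≤ ENNReal.ofReal (√((n : ℝ) + 1) * s ^ n) := by
  by_cases h0 : v = 0
  · have : {g : Gr n | c ≤ ⟪act n g⁻¹ x, v⟫} = ∅ := by
      ext g
      simp [h0, hc0]
    rw [this, measure_empty]
    exact zero_le
  have hv0 : 0 < ‖v‖ := norm_pos_iff.2 h0
  refine (measure_mono ?_).trans (hit_one μ hc0 hs hcs hn (u := (‖v‖)⁻¹ • v) (by
    rw [norm_smul, norm_inv, norm_norm, inv_mul_cancel₀ hv0.ne']) hx)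
  intro g (hg : c ≤ ⟪act n g⁻¹ x, v⟫)
  show c ≤ ⟪act n g⁻¹ x, (‖v‖)⁻¹ • v⟫
  rw [inner_smul_right, inv_mul_eq_div, le_div_iff₀ hv0]
  have : c * ‖v‖ ≤ c * 1 := mul_le_mul_of_nonneg_left hv hc0.le
  linarith

/-- `x` is helped by `z`, seen from the direction `u` -/
def Hlp (η : ℝ) (u : Fs n) : Set (Fs n × Fs n) :=
  {p | 1 - 4 * η < ⟪p.1, p.2⟫ - ⟪p.1, u⟫ * ⟪u, p.2⟫ + ⟪p.1, u⟫ ^ 2}

omit [MeasurableSpace (Gr n)] [BorelSpace (Gr n)] in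
lemma hlp_meas (η : ℝ) (u : Fs n) : MeasurableSet (Hlp η u) := by
  have : IsOpen (Hlp η u) := isOpen_lt (by fun_prop) (by fun_prop)
  exact this.measurableSet

lemma help_prob {κ η ζ c s : ℝ} {Θ : Finset (ℝ × ℝ)} (hΘ1 : ∀ p ∈ Θ, p.1 ^ 2 + p.2 ^ 2 = 1)
    (hΘ : ∀ a b r : ℝ, 0 ≤ r → r ^ 2 = a ^ 2 + b ^ 2 → ∃ p ∈ Θ, κ * r ≤ a * p.1 + b * p.2)
    (hκ : 0 < κ) (hζ : ζ ^ 2 = 3 / 4 - 4 * η) (hc : c = κ * ζ)
    (hc0 : 0 < c) (hs : 0 < s)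
    (hcs : c ^ 2 + s ^ 2 = 1) (hn : 1 ≤ n) {u z : Fs n} (hu : ‖u‖ = 1) (hz : ‖z‖ = 1) {x : Fs n}
    (hx : ‖x‖ = 1) :
    μ {g | (act n g⁻¹ x, z) ∈ Hlp η u} ≤
      ENNReal.ofReal (Θ.card * (√((n : ℝ) + 1) * s ^ n)) := by
  set z' : Fs n := z - ⟪u, z⟫ • u with hz'
  have hz'u : ⟪z', u⟫ = 0 := by
    rw [hz', inner_sub_left, inner_smul_left, real_inner_self_eq_norm_sq, hu, real_inner_comm u z]
    simp
  have hz'1 : ‖z'‖ ≤ 1 := by
    have h1 : ‖z'‖ ^ 2 ≤ 1 := by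
      rw [hz', norm_sub_sq_real, hz, inner_smul_right, norm_smul, hu, real_inner_comm u z,
        Real.norm_eq_abs, mul_one, sq_abs]
      nlinarith [sq_nonneg ⟪u, z⟫]
    nlinarith [norm_nonneg z']
  obtain ⟨e, he1, heu, hze⟩ : ∃ e : Fs n, ‖e‖ ≤ 1 ∧ ⟪e, u⟫ = 0 ∧ z' = ‖z'‖ • e := by
    by_cases h0 : z' = 0
    · exact ⟨0, by simp, by simp, by simp [h0]⟩
    · have h1 : 0 < ‖z'‖ := norm_pos_iff.2 h0
      refine ⟨(‖z'‖)⁻¹ • z', ?_, ?_, ?_⟩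
      · rw [norm_smul, norm_inv, norm_norm, inv_mul_cancel₀ h1.ne']
      · rw [inner_smul_left, hz'u, mul_zero]
      · rw [smul_smul, mul_inv_cancel₀ h1.ne', one_smul]
  have hsub : {g : Gr n | (act n g⁻¹ x, z) ∈ Hlp η u} ⊆
      ⋃ p ∈ Θ, {g : Gr n | c ≤ ⟪act n g⁻¹ x, p.1 • u + p.2 • e⟫} := by
    intro g hg
    set y := act n g⁻¹ x with hy
    have hg : 1 - 4 * η < ⟪y, z⟫ - ⟪y, u⟫ * ⟪u, z⟫ + ⟪y, u⟫ ^ 2 := hg
    have h1 : ⟪y, z⟫ - ⟪y, u⟫ * ⟪u, z⟫ = ‖z'‖ * ⟪y, e⟫ := by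
      have e1 : ⟪y, z'⟫ = ⟪y, z⟫ - ⟪u, z⟫ * ⟪y, u⟫ := by
        rw [hz', inner_sub_right, inner_smul_right]
      have e2 : ⟪y, z'⟫ = ‖z'‖ * ⟪y, e⟫ := by
        conv_lhs => rw [hze]
        rw [inner_smul_right]
      linarith
    rw [h1] at hg
    set a := ⟪y, u⟫ with ha
    set b := ⟪y, e⟫ with hb
    have h2 : ζ ^ 2 ≤ a ^ 2 + b ^ 2 := by
      rw [hζ]
      have hz0 := norm_nonneg z'
      rcases le_or_gt 0 b with hb0 | hb0
      · have h3 : ‖z'‖ * b ≤ b := by nlinarith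
        have h4 : 1 - 4 * η - a ^ 2 < b := by linarith
        nlinarith [sq_nonneg (b - 1 / 2)]
      · have h3 : ‖z'‖ * b ≤ 0 := mul_nonpos_of_nonneg_of_nonpos hz0 hb0.le
        nlinarith [sq_nonneg b]
    obtain ⟨p, hp, hp2⟩ := hΘ a b (√(a ^ 2 + b ^ 2)) (Real.sqrt_nonneg _)
      (Real.sq_sqrt (by positivity))
    refine mem_biUnion hp ?_
    show c ≤ ⟪y, p.1 • u + p.2 • e⟫
    rw [inner_add_right, inner_smul_right, inner_smul_right, ← ha, ← hb]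
    have h5 : ζ ≤ √(a ^ 2 + b ^ 2) := Real.le_sqrt_of_sq_le h2
    have h6 : κ * ζ ≤ κ * √(a ^ 2 + b ^ 2) := mul_le_mul_of_nonneg_left h5 hκ.le
    rw [hc]
    linarith
  refine (measure_mono hsub).trans ((measure_biUnion_finset_le _ _).trans ?_)
  refine (Finset.sum_le_sum fun p hp => hit_vec μ hc0 hs hcs hn (v := p.1 • u + p.2 • e) ?_ hx).trans
    (le_of_eq ?_)
  · have h1 : ‖p.1 • u + p.2 • e‖ ^ 2 ≤ 1 := by
      rw [norm_add_sq_real, norm_smul, norm_smul, inner_smul_left, inner_smul_right,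
        real_inner_comm, heu, hu, Real.norm_eq_abs, Real.norm_eq_abs, mul_one, mul_pow, sq_abs,
        sq_abs]
      have h2 := hΘ1 p hp
      have h3 : ‖e‖ ^ 2 ≤ 1 := pow_le_one₀ (norm_nonneg _) he1
      simp only [mul_zero, add_zero]
      nlinarith [sq_nonneg p.2]
    nlinarith [norm_nonneg (p.1 • u + p.2 • e)]
  · rw [Finset.sum_const, nsmul_eq_mul, ENNReal.ofReal_mul (Nat.cast_nonneg _),
      ENNReal.ofReal_natCast]

end haar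

end Pool.Agent.Helper7.RP
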