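import Pool.Agent.Helper7.RP.DetLow
import Pool.Agent.Helper7.RP.Asym

set_option autoImplicit false

/-!
The lower bound in the space `Fs n`.
-/

namespace Pool.Agent.Helper7.RP

open scoped RealInnerProductSpace ENNReal
open MeasureTheory Module Metric Set Filter
open Pool.Agent.K3h76.RB Pool.Agent.K3h76.SD Pool.Agent.W396.Il

/-- the separation of the points -/
noncomputable def c₁ : ℝ := 127 / 128

noncomputable def s₁ : ℝ := √(1 - c₁ ^ 2)

lemma c₁_pos : 0 < c₁ := by norm_num [c₁]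

lemma s₁_pos : 0 < s₁ := Real.sqrt_pos.2 (by norm_num [c₁])

lemma cs₁ : c₁ ^ 2 + s₁ ^ 2 = 1 := by
  rw [s₁, Real.sq_sqrt (by norm_num [c₁])]
  ring

lemma s₁_lt : s₁ < 1 / 8 := by
  rw [s₁, Real.sqrt_lt' (by norm_num)]
  norm_num [c₁]

/-- the choice of the parameters -/
lemma low_params {q : ℝ} (hq1 : 1 < q) (hq2 : q < √2) : ∃ (s : ℝ) (k : ℕ) (η : ℝ),
    0 < s ∧ s < 1 ∧ 3 / 4 - 4 * η > 1 - s ^ 2 ∧ 0 < η ∧ 1 ≤ k ∧
    8 * η * k ≤ (1 / 256) ^ 2 ∧ (1 / 256 : ℝ) ^ 2 + 2 * (1 / 256) + 4 * η ≤ 1 / 64 ∧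
    (1 + 2 / η) * (q ^ 2 * s) ^ k < 1 := by
  have hq0 : 0 < q := by linarith
  have hs2 : √2 * √2 = (2 : ℝ) := Real.mul_self_sqrt (by norm_num)
  have hqq : q ^ 2 < 2 := by nlinarith [Real.sqrt_nonneg 2]
  have hqq1 : 1 < q ^ 2 := by nlinarith
  set s : ℝ := (1 / 2 + 1 / q ^ 2) / 2 with hs
  have hinv : 1 / 2 < 1 / q ^ 2 := one_div_lt_one_div_of_lt (by positivity) hqq
  have hinv1 : 1 / q ^ 2 < 1 := by rw [div_lt_one (by positivity)]; exact hqq1
  have hs0 : 1 / 2 < s := by rw [hs]; linarith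
  have hs1 : s < 1 / q ^ 2 := by rw [hs]; linarith
  have hs1' : s < 1 := by linarith
  have hqs : q ^ 2 * s < 1 := by
    have := mul_lt_mul_of_pos_left hs1 (show 0 < q ^ 2 by positivity)
    rwa [mul_one_div, div_self (by positivity)] at this
  have hqs0 : 0 < q ^ 2 * s := by positivity
  have hgap : 0 < s ^ 2 - 1 / 4 := by nlinarith
  have E1 : ∀ᶠ m : ℕ in atTop, 1 * (m : ℝ) ^ 0 * (q ^ 2 * s) ^ m ≤ 1 / 4 :=
    ev_small hqs0 hqs 0 1 _ (by norm_num)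
  have E2 : ∀ᶠ m : ℕ in atTop, 2 * (m : ℝ) ^ 2 * (q ^ 2 * s) ^ m ≤ 1 / 4 :=
    ev_small hqs0 hqs 2 2 _ (by norm_num)
  have E3 : ∀ᶠ m : ℕ in atTop, 4 / (s ^ 2 - 1 / 4) + 524288 ≤ (m : ℝ) :=
    (tendsto_natCast_atTop_atTop (R := ℝ)).eventually_ge_atTop _
  obtain ⟨m, ⟨F1, F2⟩, F3⟩ := ((E1.and E2).and E3).exists
  have h4 : 0 < 4 / (s ^ 2 - 1 / 4) := by positivity
  have hm : (524288 : ℝ) ≤ m := by linarith
  have hm0 : (0 : ℝ) < m := by linarith
  have hm1 : (1 : ℝ) ≤ m := by linarith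
  have hmm : (m : ℝ) ≤ (m : ℝ) ^ 2 := by nlinarith
  refine ⟨s, m, 1 / (m : ℝ) ^ 2, by linarith, hs1', ?_, by positivity, ?_, ?_, ?_, ?_⟩
  · have h5 : 4 / (s ^ 2 - 1 / 4) < m := by linarith
    rw [div_lt_iff₀ hgap] at h5
    have h6 : 4 * (1 / (m : ℝ) ^ 2) ≤ 4 / m := by
      rw [mul_one_div]
      exact div_le_div_of_nonneg_left (by norm_num) hm0 hmm
    have h7 : 4 / (m : ℝ) < s ^ 2 - 1 / 4 := by
      rw [div_lt_iff₀ hm0]
      linarith
    linarith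
  · exact_mod_cast hm1
  · have : 8 * (1 / (m : ℝ) ^ 2) * m = 8 / m := by field_simp
    rw [this, div_le_iff₀ hm0]
    linarith
  · have h6 : 4 * (1 / (m : ℝ) ^ 2) ≤ 4 / m := by
      rw [mul_one_div]
      exact div_le_div_of_nonneg_left (by norm_num) hm0 hmm
    have h7 : 4 / (m : ℝ) ≤ 4 / 524288 := div_le_div_of_nonneg_left (by norm_num) (by norm_num) hm
    have h8 : (4 / 524288 : ℝ) ≤ 1 / 1000 := by norm_num
    have h9 : (1 / 256 : ℝ) ^ 2 + 2 * (1 / 256) + 1 / 1000 ≤ 1 / 64 := by norm_num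
    linarith
  · have h6 : 2 / (1 / (m : ℝ) ^ 2) = 2 * (m : ℝ) ^ 2 := by field_simp
    rw [h6, add_mul]
    rw [pow_zero, mul_one] at F1
    linarith

open Classical in
/-- the probability that two points are close to each other, or that there are helpers -/
theorem low_prob {n : ℕ} (hn : 1 ≤ n) {ι : Type*} [Fintype ι] (ν : ι → Measure (Fs n))
    [∀ i, IsProbabilityMeasure (ν i)] (hν : ∀ i, RotInv (ν i))
    (hν1 : ∀ᵐ x ∂(Measure.pi ν), ∀ i, ‖x i‖ = 1)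
    {κ η ζ c s : ℝ} {Θ : Finset (ℝ × ℝ)} (hΘ1 : ∀ p ∈ Θ, p.1 ^ 2 + p.2 ^ 2 = 1)
    (hΘ : ∀ a b r : ℝ, 0 ≤ r → r ^ 2 = a ^ 2 + b ^ 2 → ∃ p ∈ Θ, κ * r ≤ a * p.1 + b * p.2)
    (hκ : 0 < κ) (hζ : ζ ^ 2 = 3 / 4 - 4 * η) (hc : c = κ * ζ)
    (hc0 : 0 < c) (hs : 0 < s) (hcs : c ^ 2 + s ^ 2 = 1)
    (Λ : Finset (Fs n)) (hΛ : ∀ u ∈ Λ, ‖u‖ = 1) (k : ℕ) :
    Measure.pi ν ((⋃ p ∈ (Finset.univ : Finset (ι × ι)).filter (fun p => p.1 ≠ p.2),
      {x | c₁ ≤ ⟪x p.1, x p.2⟫}) ∪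
      (⋃ u ∈ Λ, ⋃ p ∈ (Finset.univ : Finset ((Fin k → ι) × (Fin k → ι))).filter
        (fun p => Function.Injective p.1 ∧ (∀ l, p.2 l ≠ p.1 l) ∧
          ∀ C : Finset (Fin k), C.Nonempty → C.image p.2 ≠ C.image p.1),
        Rel (Hlp η u) p.1 p.2 Finset.univ)) ≤
      ENNReal.ofReal ((Fintype.card ι : ℝ) ^ 2 * (√((n : ℝ) + 1) * s₁ ^ n) +
        Λ.card * ((Fintype.card ι : ℝ) ^ 2) ^ k * (Θ.card * (√((n : ℝ) + 1) * s ^ n)) ^ k) := by
  let hms : MeasurableSpace (Gr n) := borel _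
  have hbs : BorelSpace (Gr n) := ⟨rfl⟩
  obtain ⟨μ, hμ1, hμ2⟩ : ∃ μ : Measure (Gr n), IsProbabilityMeasure μ ∧ μ.IsMulLeftInvariant :=
    ⟨Measure.haarMeasure ⊤, ⟨Measure.haarMeasure_self⟩, inferInstance⟩
  have hb0 : 0 ≤ √((n : ℝ) + 1) * s₁ ^ n := by
    have := s₁_pos
    positivity
  have hb1 : 0 ≤ (Θ.card : ℝ) * (√((n : ℝ) + 1) * s ^ n) := by positivity
  refine (measure_union_le _ _).trans ?_
  rw [ENNReal.ofReal_add (by positivity) (by positivity)]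
  refine add_le_add ?_ ?_
  · refine (measure_biUnion_finset_le _ _).trans ?_
    refine (Finset.sum_le_sum (g := fun _ => ENNReal.ofReal (√((n : ℝ) + 1) * s₁ ^ n))
      fun p hp => ?_).trans ?_
    · rw [Finset.mem_filter] at hp
      have hR : MeasurableSet {p : Fs n × Fs n | c₁ ≤ ⟪p.1, p.2⟫} :=
        (isClosed_le (by fun_prop) (by fun_prop)).measurableSet
      have h1 := peel_one μ hR (β := ENNReal.ofReal (√((n : ℝ) + 1) * s₁ ^ n))
        (fun x z hx hz => hit_vec μ c₁_pos s₁_pos cs₁ hn hz.le hx) ν hν hν1 hp.2.symm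
        MeasurableSet.univ (fun g x => Iff.rfl)
      rw [inter_univ, measure_univ, mul_one] at h1
      exact h1
    · rw [Finset.sum_const, nsmul_eq_mul, ← ENNReal.ofReal_natCast, ← ENNReal.ofReal_mul
        (Nat.cast_nonneg _)]
      apply ENNReal.ofReal_le_ofReal
      refine mul_le_mul_of_nonneg_right ?_ hb0
      have h2 : ((Finset.univ : Finset (ι × ι)).filter (fun p => p.1 ≠ p.2)).card ≤
          Fintype.card ι ^ 2 := by
        refine (Finset.card_filter_le _ _).trans ?_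
        rw [Finset.card_univ, Fintype.card_prod, pow_two]
      exact_mod_cast h2
  · refine (measure_biUnion_finset_le _ _).trans ?_
    refine (Finset.sum_le_sum (g := fun _ => ENNReal.ofReal (((Fintype.card ι : ℝ) ^ 2) ^ k *
      (Θ.card * (√((n : ℝ) + 1) * s ^ n)) ^ k)) fun u hu => ?_).trans ?_
    · refine (measure_biUnion_finset_le _ _).trans ?_
      refine (Finset.sum_le_sum (g := fun _ => ENNReal.ofReal
        ((Θ.card * (√((n : ℝ) + 1) * s ^ n)) ^ k)) fun p hp => ?_).trans ?_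
      · rw [Finset.mem_filter] at hp
        have h1 := peel μ (hlp_meas η u) (β := ENNReal.ofReal (Θ.card * (√((n : ℝ) + 1) * s ^ n)))
          (fun x z hx hz => help_prob μ hΘ1 hΘ hκ hζ hc hc0 hs hcs hn (hΛ u hu) hz hx) ν hν hν1
          hp.2.1 Finset.univ (fun l _ => hp.2.2.1 l) (fun C _ => hp.2.2.2 C)
        rw [Finset.card_univ, Fintype.card_fin, ← ENNReal.ofReal_pow hb1] at h1
        exact h1
      · rw [Finset.sum_const, nsmul_eq_mul, ← ENNReal.ofReal_natCast, ← ENNReal.ofReal_mul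
          (Nat.cast_nonneg _)]
        apply ENNReal.ofReal_le_ofReal
        refine mul_le_mul_of_nonneg_right ?_ (by positivity)
        have h2 : ((Finset.univ : Finset ((Fin k → ι) × (Fin k → ι))).filter
            (fun p => Function.Injective p.1 ∧ (∀ l, p.2 l ≠ p.1 l) ∧
              ∀ C : Finset (Fin k), C.Nonempty → C.image p.2 ≠ C.image p.1)).card ≤
            (Fintype.card ι ^ 2) ^ k := by
          refine (Finset.card_filter_le _ _).trans ?_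
          rw [Finset.card_univ, Fintype.card_prod, Fintype.card_fun, Fintype.card_fin, ← mul_pow,
            pow_two]
        exact_mod_cast h2
    · rw [Finset.sum_const, nsmul_eq_mul, ← ENNReal.ofReal_natCast, ← ENNReal.ofReal_mul
        (Nat.cast_nonneg _)]
      apply ENNReal.ofReal_le_ofReal
      rw [mul_assoc]

end Pool.Agent.Helper7.RP
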