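import Pool.Agent.Helper7.RP.Low

set_option autoImplicit false

/-!
The lower bound in the space `Fs n`: conclusion.
-/

namespace Pool.Agent.Helper7.RP

open scoped RealInnerProductSpace ENNReal
open MeasureTheory Module Metric Set Filter
open Pool.Agent.K3h76.RB Pool.Agent.K3h76.SD Pool.Agent.W396.Il

/-- the numerical inequality for the lower bound -/
lemma low_asym {q s ω : ℝ} (hq1 : 1 < q) (hq2 : q < √2) (hs : 0 < s) (A : ℝ) (hA : 0 ≤ A) (k : ℕ)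
    (L : ℝ) (hL : 1 ≤ L) (hω : ω = L * (q ^ 2 * s) ^ k) (hω1 : ω < 1) :
    ∃ (c : ℝ) (n₀ : ℕ), 0 < c ∧ ∀ n : ℕ, n₀ ≤ n → ∀ N B : ℝ, 0 ≤ N → N ≤ q ^ (n + 1) →
      0 ≤ B → B ≤ L ^ (n + 1) →
      N ^ 2 * (√((n : ℝ) + 1) * s₁ ^ n) + B * (N ^ 2) ^ k * (A * (√((n : ℝ) + 1) * s ^ n)) ^ k ≤
        Real.exp (-(c * ((n + 1 : ℕ) : ℝ))) := by
  have hq0 : 0 < q := by linarith
  have hs2 : √2 * √2 = (2 : ℝ) := Real.mul_self_sqrt (by norm_num)
  have hqq : q ^ 2 < 2 := by nlinarith [Real.sqrt_nonneg 2]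
  have hs10 := s₁_pos
  have hs11 := s₁_lt
  have hω0 : 0 < ω := by rw [hω]; positivity
  have hqs : q ^ 2 * s₁ < 1 / 4 := by nlinarith
  have hqs0 : 0 < q ^ 2 * s₁ := by positivity
  set r : ℝ := max (1 / 4) ω with hr
  have hr0 : 0 < r := lt_max_of_lt_left (by norm_num)
  have hr1 : r < 1 := max_lt (by norm_num) hω1
  set r' : ℝ := (1 + r) / 2 with hr'
  have hr'0 : 0 < r' := by rw [hr']; linarith
  have hr'1 : r' < 1 := by rw [hr']; linarith
  have hrr' : r < r' := by rw [hr']; linarith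
  have h1r : q ^ 2 * s₁ < r' := by
    have := le_max_left (1 / 4) ω
    linarith
  have h2r : ω < r' := by
    have := le_max_right (1 / 4) ω
    linarith
  have E1 : ∀ᶠ d : ℕ in atTop, (1 / s₁) * (d : ℝ) ^ 1 * (q ^ 2 * s₁ / r') ^ d ≤ 1 / 2 :=
    ev_small (by positivity) (by rw [div_lt_one hr'0]; exact h1r) 1 _ _ (by norm_num)
  have E2 : ∀ᶠ d : ℕ in atTop, ((A / s) ^ k) * (d : ℝ) ^ k * (ω / r') ^ d ≤ 1 / 2 :=
    ev_small (by positivity) (by rw [div_lt_one hr'0]; exact h2r) k _ _ (by norm_num)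
  obtain ⟨d₀, hd₀⟩ := ((E1.and E2).and (eventually_ge_atTop 1)).exists_forall_of_atTop
  refine ⟨-Real.log r', d₀, by linarith [Real.log_neg hr'0 hr'1], fun n hn N B hN0 hN hB0 hB => ?_⟩
  obtain ⟨⟨F1, F2⟩, -⟩ := hd₀ (n + 1) (by omega)
  set D : ℝ := ((n + 1 : ℕ) : ℝ) with hD
  have hD' : (n : ℝ) + 1 = D := by rw [hD]; push_cast; ring
  have hD1 : 1 ≤ D := by rw [← hD']; linarith [Nat.cast_nonneg (α := ℝ) n]
  have hexp : Real.exp (-(-Real.log r' * D)) = r' ^ (n + 1) := by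
    have : -(-Real.log r' * D) = ((n + 1 : ℕ) : ℝ) * Real.log r' := by rw [hD]; ring
    rw [this, Real.exp_nat_mul, Real.exp_log hr'0]
  rw [hexp, hD']
  have hrd : 0 < r' ^ (n + 1) := by positivity
  have hsq : √D ≤ D := by
    rw [Real.sqrt_le_left (by linarith)]
    nlinarith
  have hN2 : N ^ 2 ≤ (q ^ 2) ^ (n + 1) := by
    rw [← pow_mul, mul_comm, pow_mul]
    exact pow_le_pow_left₀ hN0 hN 2
  have T1 : N ^ 2 * (√D * s₁ ^ n) ≤ r' ^ (n + 1) / 2 := by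
    have e : s₁ ^ n = s₁ ^ (n + 1) / s₁ := by
      rw [pow_succ]; field_simp
    calc N ^ 2 * (√D * s₁ ^ n) ≤ (q ^ 2) ^ (n + 1) * (D * s₁ ^ n) := by gcongr
      _ = (1 / s₁ * D ^ 1 * (q ^ 2 * s₁ / r') ^ (n + 1)) * r' ^ (n + 1) := by
          rw [e, div_pow, mul_pow]
          field_simp
      _ ≤ 1 / 2 * r' ^ (n + 1) := by gcongr
      _ = _ := by ring
  have T2 : B * (N ^ 2) ^ k * (A * (√D * s ^ n)) ^ k ≤ r' ^ (n + 1) / 2 := by
    have e : s ^ n = s ^ (n + 1) / s := by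
      rw [pow_succ]; field_simp
    calc B * (N ^ 2) ^ k * (A * (√D * s ^ n)) ^ k
        ≤ L ^ (n + 1) * ((q ^ 2) ^ (n + 1)) ^ k * (A * (D * s ^ n)) ^ k := by gcongr
      _ = ((A / s) ^ k * D ^ k * (ω / r') ^ (n + 1)) * r' ^ (n + 1) := by
          have e2 : (ω / r') ^ (n + 1) * r' ^ (n + 1) = ω ^ (n + 1) := by
            rw [div_pow, div_mul_cancel₀ _ hrd.ne']
          have e3 : ω ^ (n + 1) = L ^ (n + 1) * ((q ^ 2) ^ (n + 1)) ^ k * (s ^ (n + 1)) ^ k := by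
            rw [hω, mul_pow L, ← pow_mul (q ^ 2 * s), mul_comm k, pow_mul, mul_pow (q ^ 2) s,
              mul_pow]
            ring
          have e4 : (A * (D * s ^ n)) ^ k = (A / s) ^ k * D ^ k * (s ^ (n + 1)) ^ k := by
            rw [e, ← mul_pow, ← mul_pow]
            congr 1
            field_simp
          rw [mul_assoc ((A / s) ^ k * D ^ k), e2, e3, e4]
          ring
      _ ≤ 1 / 2 * r' ^ (n + 1) := by gcongr
      _ = _ := by ring
  linarith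

open Classical in
/-- Independent random unit vectors with rotation invariant distributions: the product measure. -/
theorem low_pi {q : ℝ} (hq1 : 1 < q) (hq2 : q < √2) : ∃ (c : ℝ) (k n₀ : ℕ), 0 < c ∧ 1 ≤ k ∧
    ∀ n : ℕ, n₀ ≤ n → ∀ (ι : Type) [Fintype ι], (Fintype.card ι : ℝ) ≤ q ^ (n + 1) →
      ∀ (ν : ι → Measure (Fs n)) [∀ i, IsProbabilityMeasure (ν i)], (∀ i, RotInv (ν i)) →
      (∀ᵐ x ∂(Measure.pi ν), ∀ i, ‖x i‖ = 1) →
      ∃ Z : Set (ι → Fs n),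
        Measure.pi ν Z ≤ ENNReal.ofReal (Real.exp (-(c * ((n + 1 : ℕ) : ℝ)))) ∧
        ∀ x, x ∉ Z → ∀ T : Finset (Fs n), convexHull ℝ (range x) ⊆
          ⋃ t ∈ T, (fun y => t + y) '' interior (convexHull ℝ (range x)) →
          Fintype.card ι ≤ T.card * k := by
  obtain ⟨s, k, η, hs0, hs1, hgap, hη0, hk1, hηk, hση, hω1⟩ := low_params hq1 hq2
  -- the cap
  set c : ℝ := √(1 - s ^ 2) with hc
  have hs2 : s ^ 2 < 1 := by nlinarith
  have hc0 : 0 < c := Real.sqrt_pos.2 (by linarith)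
  have hc2 : c ^ 2 = 1 - s ^ 2 := Real.sq_sqrt (by linarith)
  set ζ : ℝ := √(3 / 4 - 4 * η) with hζ
  have hζ0 : 0 < ζ := Real.sqrt_pos.2 (by linarith)
  have hζ2 : ζ ^ 2 = 3 / 4 - 4 * η := Real.sq_sqrt (by linarith)
  have hcζ : c < ζ := Real.sqrt_lt_sqrt (by linarith) (by linarith)
  set κ : ℝ := c / ζ with hκ
  have hκ0 : 0 < κ := by positivity
  have hκ1 : κ < 1 := by rw [hκ, div_lt_one hζ0]; exact hcζ
  have hcκ : c = κ * ζ := by rw [hκ, div_mul_cancel₀ _ hζ0.ne']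
  obtain ⟨Θ, hΘ1, hΘ⟩ := circle_net hκ1
  have hL : 1 ≤ 1 + 2 / η := by
    have : 0 < 2 / η := by positivity
    linarith
  obtain ⟨c', n₀, hc'0, hasym⟩ := low_asym hq1 hq2 hs0 (Θ.card : ℝ) (Nat.cast_nonneg _) k
    (1 + 2 / η) hL rfl hω1
  refine ⟨c', k, n₀ + 1, hc'0, hk1, fun n hn ι _ hN ν _ hν hν1 => ?_⟩
  have hn1 : 1 ≤ n := by omega
  obtain ⟨Λ, hΛc, hΛ1, hΛ⟩ := net_sphere (E := Fs n) η hη0
  rw [finrank_Fs] at hΛc
  set Z₀ : Set (ι → Fs n) := (⋃ p ∈ (Finset.univ : Finset (ι × ι)).filter (fun p => p.1 ≠ p.2),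
      {x | c₁ ≤ ⟪x p.1, x p.2⟫}) ∪
      (⋃ u ∈ Λ, ⋃ p ∈ (Finset.univ : Finset ((Fin k → ι) × (Fin k → ι))).filter
        (fun p => Function.Injective p.1 ∧ (∀ l, p.2 l ≠ p.1 l) ∧
          ∀ C : Finset (Fin k), C.Nonempty → C.image p.2 ≠ C.image p.1),
        Rel (Hlp η u) p.1 p.2 Finset.univ) with hZ₀
  have hprob := low_prob hn1 ν hν hν1 hΘ1 hΘ hκ0 hζ2 hcκ hc0 hs0 (by rw [hc2]; ring) Λ hΛ1 k
  refine ⟨Z₀ ∪ {x | ¬ ∀ i, ‖x i‖ = 1}, ?_, ?_⟩
  · refine (measure_union_le _ _).trans ?_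
    have h0 : Measure.pi ν {x | ¬ ∀ i, ‖x i‖ = 1} = 0 := hν1
    rw [h0, add_zero]
    refine hprob.trans (ENNReal.ofReal_le_ofReal ?_)
    exact hasym n (by omega) _ _ (Nat.cast_nonneg _) hN (Nat.cast_nonneg _) hΛc
  · intro x hx T hT
    rw [mem_union, not_or] at hx
    obtain ⟨hx0, hx1⟩ := hx
    have hx1 : ∀ i, ‖x i‖ = 1 := by
      by_contra hcon
      exact hx1 hcon
    rw [hZ₀, mem_union, not_or] at hx0
    obtain ⟨hsep, hhelp⟩ := hx0
    have hsep : ∀ i j, i ≠ j → ⟪x i, x j⟫ < c₁ := by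
      intro i j hij
      by_contra hcon
      push Not at hcon
      apply hsep
      refine mem_biUnion (show (i, j) ∈ ((Finset.univ : Finset (ι × ι)).filter
        (fun p => p.1 ≠ p.2) : Finset (ι × ι)) from ?_) hcon
      simpa using hij
    have hinj : Function.Injective x := by
      intro i j hij
      by_contra hne
      have h1 := hsep i j hne
      rw [hij, real_inner_self_eq_norm_sq, hx1] at h1
      norm_num [c₁] at h1
    by_contra hcon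
    push Not at hcon
    obtain ⟨w, hw, a, b, ha, hab⟩ := det_low x hx1 hinj T hT hcon
    obtain ⟨u, hu, hwu⟩ := hΛ w hw
    have hrob := fun l => robust (hx1 (a l)) (hx1 (b l)) hw (hΛ1 u hu) hwu (hab l).2.1 (hab l).2.2
    apply hhelp
    refine mem_biUnion hu (mem_biUnion (show (a, b) ∈ ((Finset.univ : Finset
      ((Fin k → ι) × (Fin k → ι))).filter (fun p => Function.Injective p.1 ∧
        (∀ l, p.2 l ≠ p.1 l) ∧ ∀ C : Finset (Fin k), C.Nonempty → C.image p.2 ≠ C.image p.1) :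
          Finset _) from ?_) ?_)
    · rw [Finset.mem_filter]
      refine ⟨Finset.mem_univ _, ha, fun l => (hab l).1, fun C hC hCab => ?_⟩
      obtain ⟨l, hl⟩ := hC
      have h1 := no_cycle hη0.le (show (0 : ℝ) ≤ 1 / 256 by norm_num) hηk (hΛ1 u hu) x hx1 a b ha C
        hCab (fun l _ => (hrob l).1) (fun l _ => (hrob l).2) l hl
      have h2 := hsep (a l) (b l) (hab l).1.symm
      rw [c₁] at h2
      linarith
    · intro l _
      exact (hrob l).2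

end Pool.Agent.Helper7.RP
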