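import Pool.Agent.Helper7.RP.Help

set_option autoImplicit false

/-!
Relations between independent random points: removing the points one by one.
-/

namespace Pool.Agent.Helper7.RP

open scoped RealInnerProductSpace ENNReal
open MeasureTheory Module Metric Set
open Pool.Agent.K3h76.RB Pool.Agent.K3h76.SD Pool.Agent.W396.Il

variable {ι : Type*} [Fintype ι] [DecidableEq ι] {n : ℕ}

/-- rotate the point with the index `i` only -/
noncomputable def upd (i : ι) (p : Gr n × (ι → Fs n)) : ι → Fs n :=
  fun l => if l = i then actf n (p.2 l, p.1) else p.2 l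

omit [Fintype ι] in
lemma upd_meas [MeasurableSpace (Gr n)] [BorelSpace (Gr n)] (i : ι) :
    Measurable (upd (n := n) i) := by
  rw [measurable_pi_iff]
  intro l
  have h1 : Measurable fun p : Gr n × (ι → Fs n) => p.2 l :=
    (measurable_pi_apply l).comp measurable_snd
  have h3 : Measurable fun p : Gr n × (ι → Fs n) => (p.2 l, p.1) := h1.prodMk measurable_fst
  have h4 := actf_meas.comp h3
  by_cases h : l = i
  · have : (fun p : Gr n × (ι → Fs n) => upd i p l) = actf n ∘ fun p => (p.2 l, p.1) := by
      ext1 p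
      simp [upd, h]
    rw [this]
    exact h4
  · have : (fun p : Gr n × (ι → Fs n) => upd i p l) = fun p => p.2 l := by
      ext1 p
      simp [upd, h]
    rw [this]
    exact h1

lemma upd_pres (i : ι) (g : Gr n) (ν : ι → Measure (Fs n)) [∀ i, IsProbabilityMeasure (ν i)]
    (hν : ∀ i, RotInv (ν i)) :
    MeasurePreserving (fun a : ι → Fs n => upd i (g, a)) (Measure.pi ν) (Measure.pi ν) := by
  have h : MeasurePreserving (fun (a : ι → Fs n) l => (if l = i then act n g⁻¹ (a l) else a l))
      (Measure.pi ν) (Measure.pi ν) := by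
    refine measurePreserving_pi ν ν (f := fun l v => if l = i then act n g⁻¹ v else v) fun l => ?_
    by_cases hl : l = i
    · simp only [if_pos hl]
      exact ⟨(act n g⁻¹).continuous.measurable, hν l _⟩
    · simp only [if_neg hl]
      exact MeasurePreserving.id _
  exact h

/-- removing one relation -/
lemma peel_one [MeasurableSpace (Gr n)] [BorelSpace (Gr n)] (μ : Measure (Gr n))
    [IsProbabilityMeasure μ] [μ.IsMulLeftInvariant] {R : Set (Fs n × Fs n)} (hR : MeasurableSet R)
    {β : ℝ≥0∞} (hβ : ∀ x z : Fs n, ‖x‖ = 1 → ‖z‖ = 1 → μ {g | (act n g⁻¹ x, z) ∈ R} ≤ β)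
    (ν : ι → Measure (Fs n)) [∀ i, IsProbabilityMeasure (ν i)] (hν : ∀ i, RotInv (ν i))
    (hν1 : ∀ᵐ x ∂(Measure.pi ν), ∀ i, ‖x i‖ = 1) {i j : ι} (hij : j ≠ i) {Z : Set (ι → Fs n)}
    (hZ : MeasurableSet Z) (hZi : ∀ g x, upd i (g, x) ∈ Z ↔ x ∈ Z) :
    Measure.pi ν ({x | (x i, x j) ∈ R} ∩ Z) ≤ β * Measure.pi ν Z := by
  set A : Set (ι → Fs n) := {x | (x i, x j) ∈ R} with hA
  have hAm : MeasurableSet A :=
    ((measurable_pi_apply i).prodMk (measurable_pi_apply j)) hR
  have hAZ : MeasurableSet (A ∩ Z) := hAm.inter hZ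
  have hT : MeasurableSet (upd (n := n) i ⁻¹' (A ∩ Z)) := upd_meas i hAZ
  have h1 : (μ.prod (Measure.pi ν)) (upd i ⁻¹' (A ∩ Z)) = Measure.pi ν (A ∩ Z) := by
    rw [Measure.prod_apply hT]
    have h2 : ∀ g : Gr n, Measure.pi ν (Prod.mk g ⁻¹' (upd i ⁻¹' (A ∩ Z))) =
        Measure.pi ν (A ∩ Z) := fun g =>
      (upd_pres i g ν hν).measure_preimage hAZ.nullMeasurableSet
    simp_rw [h2]
    rw [lintegral_const, measure_univ, mul_one]
  rw [← h1, Measure.prod_apply_symm hT]
  calc ∫⁻ x, μ ((fun g => (g, x)) ⁻¹' (upd i ⁻¹' (A ∩ Z))) ∂(Measure.pi ν)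
      ≤ ∫⁻ x, Z.indicator (fun _ => β) x ∂(Measure.pi ν) := by
        refine lintegral_mono_ae ?_
        filter_upwards [hν1] with x hx
        by_cases hxZ : x ∈ Z
        · rw [indicator_of_mem hxZ]
          refine (measure_mono ?_).trans (hβ (x i) (x j) (hx i) (hx j))
          intro g hg
          have hg : upd i (g, x) ∈ A := hg.1
          have e1 : upd i (g, x) i = act n g⁻¹ (x i) := by simp [upd, actf]
          have e2 : upd i (g, x) j = x j := by simp [upd, hij]
          have hg : (upd i (g, x) i, upd i (g, x) j) ∈ R := hg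
          rw [e1, e2] at hg
          exact hg
        · rw [indicator_of_notMem hxZ]
          have : (fun g => (g, x)) ⁻¹' (upd i ⁻¹' (A ∩ Z)) = ∅ := by
            ext g
            simp only [mem_empty_iff_false, iff_false]
            exact fun hg => hxZ ((hZi g x).1 hg.2)
          rw [this, measure_empty]
    _ = β * Measure.pi ν Z := by
        rw [lintegral_indicator hZ, setLIntegral_const]

/-- the set where the relations with index in `S` hold -/
def Rel (R : Set (Fs n × Fs n)) {k : ℕ} (a b : Fin k → ι) (S : Finset (Fin k)) :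
    Set (ι → Fs n) := {x | ∀ l ∈ S, (x (a l), x (b l)) ∈ R}

omit [Fintype ι] [DecidableEq ι] in
lemma rel_meas {R : Set (Fs n × Fs n)} (hR : MeasurableSet R) {k : ℕ} (a b : Fin k → ι)
    (S : Finset (Fin k)) : MeasurableSet (Rel R a b S) := by
  have : Rel R a b S = ⋂ l ∈ S, {x | (x (a l), x (b l)) ∈ R} := by
    ext x
    simp [Rel]
  rw [this]
  exact S.measurableSet_biInter fun l _ =>
    ((measurable_pi_apply (a l)).prodMk (measurable_pi_apply (b l))) hR

/-- removing all the relations -/
theorem peel [MeasurableSpace (Gr n)] [BorelSpace (Gr n)] (μ : Measure (Gr n))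
    [IsProbabilityMeasure μ] [μ.IsMulLeftInvariant] {R : Set (Fs n × Fs n)} (hR : MeasurableSet R)
    {β : ℝ≥0∞} (hβ : ∀ x z : Fs n, ‖x‖ = 1 → ‖z‖ = 1 → μ {g | (act n g⁻¹ x, z) ∈ R} ≤ β)
    (ν : ι → Measure (Fs n)) [∀ i, IsProbabilityMeasure (ν i)] (hν : ∀ i, RotInv (ν i))
    (hν1 : ∀ᵐ x ∂(Measure.pi ν), ∀ i, ‖x i‖ = 1) {k : ℕ} {a b : Fin k → ι}
    (ha : Function.Injective a) (S : Finset (Fin k)) (hab : ∀ l ∈ S, b l ≠ a l)
    (hNC : ∀ C ⊆ S, C.Nonempty → C.image b ≠ C.image a) :
    Measure.pi ν (Rel R a b S) ≤ β ^ S.card := by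
  induction S using Finset.strongInduction with
  | H S ih =>
    rcases S.eq_empty_or_nonempty with rfl | hne
    · rw [Finset.card_empty, pow_zero]
      exact prob_le_one
    obtain ⟨l, hl, hlb⟩ : ∃ l ∈ S, a l ∉ S.image b := by
      by_contra hcon
      push Not at hcon
      have hsub : S.image a ⊆ S.image b := by
        intro y hy
        obtain ⟨l, hl, rfl⟩ := Finset.mem_image.1 hy
        exact hcon l hl
      have hc : (S.image b).card ≤ (S.image a).card := by
        rw [Finset.card_image_of_injective S ha]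
        exact Finset.card_image_le
      exact hNC S subset_rfl hne (Finset.eq_of_subset_of_card_le hsub hc).symm
    have hih := ih (S.erase l) (Finset.erase_ssubset hl)
      (fun l' hl' => hab l' (Finset.mem_of_mem_erase hl'))
      (fun C hC => hNC C (hC.trans (Finset.erase_subset _ _)))
    have hsplit : Rel R a b S = {x | (x (a l), x (b l)) ∈ R} ∩ Rel R a b (S.erase l) := by
      ext x
      constructor
      · intro h
        exact ⟨h l hl, fun l' hl' => h l' (Finset.mem_of_mem_erase hl')⟩
      · rintro ⟨h1, h2⟩ l' hl'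
        by_cases h3 : l' = l
        · rw [h3]; exact h1
        · exact h2 l' (Finset.mem_erase.2 ⟨h3, hl'⟩)
    rw [hsplit]
    refine (peel_one μ hR hβ ν hν hν1 (hab l hl) (rel_meas hR a b _) ?_).trans ?_
    · intro g x
      have hkey : ∀ l' ∈ S.erase l, upd (a l) (g, x) (a l') = x (a l') ∧
          upd (a l) (g, x) (b l') = x (b l') := by
        intro l' hl'
        have h3 : a l' ≠ a l := fun h => (Finset.ne_of_mem_erase hl') (ha h)
        have h4 : b l' ≠ a l := fun h => hlb
          (h ▸ Finset.mem_image_of_mem b (Finset.mem_of_mem_erase hl'))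
        exact ⟨by simp [upd, h3], by simp [upd, h4]⟩
      constructor
      · intro h l' hl'
        have := h l' hl'
        rwa [(hkey l' hl').1, (hkey l' hl').2] at this
      · intro h l' hl'
        rw [(hkey l' hl').1, (hkey l' hl').2]
        exact h l' hl'
    · have hcard : S.card = (S.erase l).card + 1 := (Finset.card_erase_add_one hl).symm
      rw [hcard, pow_succ']
      gcongr

end Pool.Agent.Helper7.RP
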