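import Pool.Agent.Helper7.RP.Det

set_option autoImplicit false

/-!
The probability that the longest points miss a cone, for independent random vectors with
rotation invariant distributions.
-/

namespace Pool.Agent.Helper7.RP

open scoped RealInnerProductSpace ENNReal
open MeasureTheory Module Metric Set
open Pool.Agent.K3h76.RB Pool.Agent.K3h76.SD Pool.Agent.W396.Il

/-- there is an upper set with at least `M` elements with no point in the cone around `u` -/
def Bad {ι : Type*} [Fintype ι] {n : ℕ} (t : ℝ) (M : ℕ) (u : Fs n) : Set (ι → Fs n) :=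
  {x | ∃ S : Finset ι, M ≤ S.card ∧ Upper x S ∧ ∀ i ∈ S, ⟪u, x i⟫ < t * ‖x i‖}

variable {ι : Type*} [Fintype ι] {n : ℕ}

lemma bad_meas (t : ℝ) (M : ℕ) (u : Fs n) : MeasurableSet (Bad (ι := ι) t M u) := by
  have h1 : Bad (ι := ι) t M u = ⋃ S : Finset ι, {x | M ≤ S.card ∧ Upper x S ∧
      ∀ i ∈ S, ⟪u, x i⟫ < t * ‖x i‖} := by
    ext x
    simp [Bad]
  rw [h1]
  refine MeasurableSet.iUnion fun S => ?_
  have h2 : {x : ι → Fs n | M ≤ S.card ∧ Upper x S ∧ ∀ i ∈ S, ⟪u, x i⟫ < t * ‖x i‖} =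
      {_x | M ≤ S.card} ∩ ((⋂ i ∈ S, ⋂ j, ⋂ (_ : j ∉ S), {x | ‖x j‖ < ‖x i‖}) ∩
        ⋂ i ∈ S, {x | ⟪u, x i⟫ < t * ‖x i‖}) := by
    ext x
    simp [Upper]
  rw [h2]
  refine (MeasurableSet.const _).inter (MeasurableSet.inter ?_ ?_)
  · refine S.measurableSet_biInter fun i _ => MeasurableSet.iInter fun j =>
      MeasurableSet.iInter fun _ => measurableSet_lt ?_ ?_
    · exact (measurable_pi_apply j).norm
    · exact (measurable_pi_apply i).norm
  · refine S.measurableSet_biInter fun i _ => measurableSet_lt ?_ ?_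
    · exact (continuous_const.inner continuous_id).measurable.comp (measurable_pi_apply i)
    · exact ((measurable_pi_apply i).norm).const_mul t

section haar

variable [MeasurableSpace (Gr n)] [BorelSpace (Gr n)] (μ : Measure (Gr n))
  [IsProbabilityMeasure μ] [μ.IsMulLeftInvariant]

/-- the probability to miss the cone around `u` -/
lemma miss_one {c s : ℝ} (hc0 : 0 < c) (hc1 : c < 1) (hs : 0 < s) (hcs : c ^ 2 + s ^ 2 = 1)
    (hn : 1 ≤ n) {u : Fs n} (hu : ‖u‖ = 1) (x : Fs n) :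
    μ {g | ⟪u, act n g⁻¹ x⟫ < c * ‖x‖} ≤ ENNReal.ofReal (1 - shareG s n) := by
  by_cases hx : x = 0
  · have : {g : Gr n | ⟪u, act n g⁻¹ x⟫ < c * ‖x‖} = ∅ := by
      ext g
      simp [hx]
    rw [this, measure_empty]
    exact zero_le
  have hx0 : 0 < ‖x‖ := norm_pos_iff.2 hx
  set A : Set (Fs n) := {y | ⟪u, y⟫ < c * ‖y‖} with hA
  have hAm : MeasurableSet A :=
    (isOpen_lt (by fun_prop) (by fun_prop)).measurableSet
  have hcone : ∀ (y : Fs n) (r : ℝ), 0 < r → (r • y ∈ A ↔ y ∈ A) := by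
    intro y r hr
    show ⟪u, r • y⟫ < c * ‖r • y‖ ↔ ⟪u, y⟫ < c * ‖y‖
    rw [inner_smul_right, norm_smul, Real.norm_of_nonneg hr.le]
    constructor
    · intro h
      by_contra hcon
      push Not at hcon
      have := mul_le_mul_of_nonneg_left hcon hr.le
      linarith
    · intro h
      have := mul_lt_mul_of_pos_left h hr
      linarith
  have he : ‖(‖x‖)⁻¹ • x‖ = 1 := by
    rw [norm_smul, norm_inv, norm_norm, inv_mul_cancel₀ hx0.ne']
  have h1 := haar_cone μ hAm hcone he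
  have h2 : {g : Gr n | ⟪u, act n g⁻¹ x⟫ < c * ‖x‖} = {g | act n g⁻¹ ((‖x‖)⁻¹ • x) ∈ A} := by
    ext g
    show ⟪u, act n g⁻¹ x⟫ < c * ‖x‖ ↔ act n g⁻¹ ((‖x‖)⁻¹ • x) ∈ A
    rw [map_smul, hcone _ _ (by positivity)]
    show ⟪u, act n g⁻¹ x⟫ < c * ‖x‖ ↔ ⟪u, act n g⁻¹ x⟫ < c * ‖act n g⁻¹ x‖
    rw [(act n g⁻¹).norm_map]
  rw [h2]
  set B : Set (Fs n) := closedBall (0 : Fs n) 1 with hB
  have hBt : volume B ≠ ⊤ := by
    rw [hB, ball_vol]
    exact ENNReal.ofReal_ne_top
  have hB0 : volume B ≠ 0 := by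
    rw [hB, ball_vol]
    simpa using kap_pos (n + 1)
  have hBm : MeasurableSet B := isClosed_closedBall.measurableSet
  have hcapm : MeasurableSet (capG c n u) := (capG_closed c n u).measurableSet
  have hcapB : capG c n u ⊆ B := fun y hy => by simpa [hB] using hy.1
  have hAB : A ∩ B = B \ capG c n u := by
    ext y
    simp only [hA, hB, mem_inter_iff, mem_ofPred_eq, mem_closedBall_zero_iff, mem_sdiff, capG,
      not_and, not_le]
    rw [real_inner_comm]
    constructor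
    · rintro ⟨h3, h4⟩
      exact ⟨h4, fun _ => h3⟩
    · rintro ⟨h3, h4⟩
      exact ⟨h4 h3, h3⟩
  have hshare := capG_share hc0 hc1 hs hcs hn hu
  have h3 : volume.real (A ∩ B) ≤ (1 - shareG s n) * volume.real B := by
    rw [hAB, measureReal_sdiff hcapB hcapm]
    linarith
  have hfin : volume (A ∩ B) ≠ ⊤ := ne_top_of_le_ne_top hBt (measure_mono inter_subset_right)
  have hle1 : shareG s n ≤ 1 := shareG_le_one hc0 hc1 hs hcs hn
  have h4 : volume (A ∩ B) ≤ ENNReal.ofReal (1 - shareG s n) * volume B := by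
    rw [← ENNReal.ofReal_toReal hfin, ← ENNReal.ofReal_toReal hBt,
      ← ENNReal.ofReal_mul (by linarith)]
    exact ENNReal.ofReal_le_ofReal h3
  rw [← h1] at h4
  exact (ENNReal.mul_le_mul_iff_left hB0 hBt).1 h4

/-- the probability to miss the cone around `u` by all the points -/
lemma miss_all {c s : ℝ} (hc0 : 0 < c) (hc1 : c < 1) (hs : 0 < s) (hcs : c ^ 2 + s ^ 2 = 1)
    (hn : 1 ≤ n) {u : Fs n} (hu : ‖u‖ = 1) {M : ℕ} (hM : 1 ≤ M) (x : ι → Fs n) :
    Measure.pi (fun _ : ι => μ) {g | (fun i => act n (g i)⁻¹ (x i)) ∈ Bad c M u} ≤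
      ENNReal.ofReal (1 - shareG s n) ^ M := by
  classical
  have hle1 : shareG s n ≤ 1 := shareG_le_one hc0 hc1 hs hcs hn
  have hsp : 0 < shareG s n := shareG_pos hs
  have hup : ∀ (g : ι → Gr n) (S : Finset ι),
      Upper (fun i => act n (g i)⁻¹ (x i)) S ↔ Upper x S := by
    intro g S
    simp only [Upper, LinearIsometryEquiv.norm_map]
  rcases lt_or_ge (Fintype.card ι) M with hlt | hge
  · have : {g : ι → Gr n | (fun i => act n (g i)⁻¹ (x i)) ∈ Bad c M u} = ∅ := by
      ext g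
      simp only [mem_ofPred_eq, mem_empty_iff_false, iff_false]
      rintro ⟨S, hS, -⟩
      have := S.card_le_univ
      omega
    rw [this, measure_empty]
    exact zero_le
  obtain ⟨S, W, R, hSM, hSU, hWM, hR0, hSR, hWR, hmin⟩ := exists_upper x hM hge
  have hsub : {g : ι → Gr n | (fun i => act n (g i)⁻¹ (x i)) ∈ Bad c M u} ⊆
      Set.univ.pi fun i => if i ∈ S then {g : Gr n | ⟪u, act n g⁻¹ (x i)⟫ < c * ‖x i‖}
        else Set.univ := by
    rintro g ⟨S', h1, h2, h3⟩ i -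
    have h4 := hmin S' h1 ((hup g S').1 h2)
    by_cases hi : i ∈ S
    · simp only [if_pos hi]
      have := h3 i (h4 hi)
      simpa using this
    · simp only [if_neg hi]
      exact mem_univ _
  refine (measure_mono hsub).trans ?_
  rw [Measure.pi_pi]
  have h5 : ∏ i, μ (if i ∈ S then {g : Gr n | ⟪u, act n g⁻¹ (x i)⟫ < c * ‖x i‖} else Set.univ) ≤
      ∏ i, (if i ∈ S then ENNReal.ofReal (1 - shareG s n) else 1) := by
    refine Finset.prod_le_prod' fun i _ => ?_
    split_ifs with hi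
    · exact miss_one μ hc0 hc1 hs hcs hn hu (x i)
    · rw [measure_univ]
  refine h5.trans ?_
  rw [Finset.prod_ite_mem, Finset.univ_inter, Finset.prod_const]
  refine pow_le_pow_right_of_le_one' ?_ hSM
  rw [← ENNReal.ofReal_one]
  exact ENNReal.ofReal_le_ofReal (by linarith)

/-- the action as a function of two variables -/
noncomputable def actf (n : ℕ) (p : Fs n × Gr n) : Fs n := act n p.2⁻¹ p.1

omit [Fintype ι] in
lemma actf_meas : Measurable (actf n) := act_cont2.measurable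

/-- the rotated points -/
noncomputable def rot (p : (ι → Gr n) × (ι → Fs n)) : ι → Fs n := fun i => actf n (p.2 i, p.1 i)

omit [Fintype ι] in
lemma rot_meas : Measurable (rot (ι := ι) (n := n)) := by
  rw [measurable_pi_iff]
  intro i
  have h1 : Measurable fun p : (ι → Gr n) × (ι → Fs n) => p.2 i :=
    (measurable_pi_apply i).comp measurable_snd
  have h2 : Measurable fun p : (ι → Gr n) × (ι → Fs n) => p.1 i :=
    (measurable_pi_apply i).comp measurable_fst
  have h3 : Measurable fun p : (ι → Gr n) × (ι → Fs n) => (p.2 i, p.1 i) := h1.prodMk h2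
  have h4 := actf_meas.comp h3
  exact h4

end haar

/-- invariance under all linear isometries -/
def RotInv {F : Type*} [NormedAddCommGroup F] [InnerProductSpace ℝ F] [MeasurableSpace F]
    (ν : Measure F) : Prop := ∀ g : F ≃ₗᵢ[ℝ] F, ν.map g = ν

lemma rot_pres (g : ι → Gr n) (ν : ι → Measure (Fs n)) [∀ i, IsProbabilityMeasure (ν i)]
    (hν : ∀ i, RotInv (ν i)) :
    MeasurePreserving (fun (a : ι → Fs n) i => act n (g i)⁻¹ (a i)) (Measure.pi ν)
      (Measure.pi ν) :=
  measurePreserving_pi ν ν fun i => ⟨(act n (g i)⁻¹).continuous.measurable, hν i _⟩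

/-- the probability of the bad event, for a given invariant measure on the group -/
theorem bad_prob' [MeasurableSpace (Gr n)] [BorelSpace (Gr n)] (μ : Measure (Gr n))
    [IsProbabilityMeasure μ] [μ.IsMulLeftInvariant] {c s : ℝ} (hc0 : 0 < c) (hc1 : c < 1)
    (hs : 0 < s) (hcs : c ^ 2 + s ^ 2 = 1)
    (hn : 1 ≤ n) {u : Fs n} (hu : ‖u‖ = 1) {M : ℕ} (hM : 1 ≤ M) (ν : ι → Measure (Fs n))
    [∀ i, IsProbabilityMeasure (ν i)] (hν : ∀ i, RotInv (ν i)) :
    Measure.pi ν (Bad c M u) ≤ ENNReal.ofReal (1 - shareG s n) ^ M := by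
  set H := Measure.pi (fun _ : ι => μ) with hH
  have hZ : MeasurableSet (rot ⁻¹' Bad (ι := ι) (n := n) c M u) := rot_meas (bad_meas c M u)
  have h1 : (H.prod (Measure.pi ν)) (rot ⁻¹' Bad c M u) = Measure.pi ν (Bad c M u) := by
    rw [Measure.prod_apply hZ]
    have h2 : ∀ g : ι → Gr n, Measure.pi ν (Prod.mk g ⁻¹' (rot ⁻¹' Bad c M u)) =
        Measure.pi ν (Bad c M u) := fun g =>
      (rot_pres g ν hν).measure_preimage (bad_meas c M u).nullMeasurableSet
    simp_rw [h2]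
    rw [lintegral_const, measure_univ, mul_one]
  rw [← h1, Measure.prod_apply_symm hZ]
  calc ∫⁻ x, H ((fun g => (g, x)) ⁻¹' (rot ⁻¹' Bad c M u)) ∂(Measure.pi ν)
      ≤ ∫⁻ _x, ENNReal.ofReal (1 - shareG s n) ^ M ∂(Measure.pi ν) :=
        lintegral_mono fun x => miss_all μ hc0 hc1 hs hcs hn hu hM x
    _ = ENNReal.ofReal (1 - shareG s n) ^ M := by
        rw [lintegral_const, measure_univ, mul_one]

/-- the probability of the bad event -/
theorem bad_prob {c s : ℝ} (hc0 : 0 < c) (hc1 : c < 1) (hs : 0 < s) (hcs : c ^ 2 + s ^ 2 = 1)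
    (hn : 1 ≤ n) {u : Fs n} (hu : ‖u‖ = 1) {M : ℕ} (hM : 1 ≤ M) (ν : ι → Measure (Fs n))
    [∀ i, IsProbabilityMeasure (ν i)] (hν : ∀ i, RotInv (ν i)) :
    Measure.pi ν (Bad c M u) ≤ ENNReal.ofReal (1 - shareG s n) ^ M := by
  let hms : MeasurableSpace (Gr n) := borel _
  have hbs : BorelSpace (Gr n) := ⟨rfl⟩
  obtain ⟨μ, hμ1, hμ2⟩ : ∃ μ : Measure (Gr n), IsProbabilityMeasure μ ∧ μ.IsMulLeftInvariant :=
    ⟨Measure.haarMeasure ⊤, ⟨Measure.haarMeasure_self⟩, inferInstance⟩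
  exact bad_prob' μ hc0 hc1 hs hcs hn hu hM ν hν

end Pool.Agent.Helper7.RP
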