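import Pool.Agent.Helper7.RP.Asym

set_option autoImplicit false

/-!
The upper bound in the space `Fs n`.
-/

namespace Pool.Agent.Helper7.RP

open scoped RealInnerProductSpace ENNReal
open MeasureTheory Module Metric Set
open Pool.Agent.K3h76.RB Pool.Agent.K3h76.SD Pool.Agent.W396.Il

open Classical in
/-- Independent random vectors with rotation invariant distributions: the product measure. -/
theorem up_pi {q : ℝ} (hq : √2 < q) : ∃ (c : ℝ) (n₀ : ℕ), 0 < c ∧ ∀ n : ℕ, n₀ ≤ n →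
    ∀ Γ : Finset (Fs n ≃ₗᵢ[ℝ] Fs n), Γ.Nonempty →
      (Γ.card : ℝ) ≤ Real.exp (c * ((n + 1 : ℕ) : ℝ)) → ∀ (ι : Type) [Fintype ι]
      (ν : ι → Measure (Fs n)) [∀ i, IsProbabilityMeasure (ν i)], (∀ i, RotInv (ν i)) →
      ∃ Z : Set (ι → Fs n), MeasurableSet Z ∧
        Measure.pi ν Z ≤ ENNReal.ofReal (Real.exp (-Real.exp (c * ((n + 1 : ℕ) : ℝ)))) ∧
        ∀ x, x ∉ Z → (interior (convexHull ℝ (pts Γ x : Set (Fs n)))).Nonempty →
          ∃ N : ℕ, (N : ℝ) ≤ q ^ (n + 1) ∧ Cov N (convexHull ℝ (pts Γ x : Set (Fs n))) := by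
  obtain ⟨q₁, t, s, η, c, n₀, hq₁, ht0, ht1, hs0, hs1, hts, hη0, hηt, hc0, hn₀, hall⟩ := params hq
  refine ⟨c, n₀, hc0, fun n hn Γ hΓ hΓc ι _ ν _ hν => ?_⟩
  obtain ⟨h1, h2, h3⟩ := hall n hn
  have hn1 : 1 ≤ n := by omega
  obtain ⟨Λ, hΛc, hΛ1, hΛ⟩ := net_sphere (E := Fs n) η hη0
  rw [finrank_Fs] at hΛc
  set M : ℕ := ⌊q₁ ^ (n + 1)⌋₊ with hM
  have hq₁0 : 0 < q₁ := by linarith
  have hM1 : 1 ≤ M := by
    rw [hM, Nat.one_le_floor_iff]
    exact one_le_pow₀ hq₁.le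
  have hMle : (M : ℝ) ≤ q₁ ^ (n + 1) := Nat.floor_le (by positivity)
  have hMge : q₁ ^ (n + 1) - 1 ≤ M := by
    have := Nat.lt_floor_add_one (q₁ ^ (n + 1))
    rw [← hM] at this
    linarith
  set f : ℝ := ((n + 1 : ℕ) : ℝ) * √(2 * Real.pi * ((n + 1 : ℕ) : ℝ)) *
      Real.log (1 + 4 * (((n + 1 : ℕ) : ℝ) + 1) / √(1 - 1 / 2)) * (1 / √(1 / 2)) ^ n with hf
  have hf1 : f ≤ 36 * ((n + 1 : ℕ) : ℝ) ^ 3 * √2 ^ (n + 1) := code_small hn1
  have hf0 : 0 ≤ f := by
    rw [hf]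
    have : 0 ≤ Real.log (1 + 4 * (((n + 1 : ℕ) : ℝ) + 1) / √(1 - 1 / 2)) := by
      apply Real.log_nonneg
      have : (0 : ℝ) ≤ 4 * (((n + 1 : ℕ) : ℝ) + 1) / √(1 - 1 / 2) := by positivity
      linarith
    positivity
  have hcode : CodeR (Fs n) (⌊f⌋₊ + 1)
      ((1 - 1 / 2) * (((n + 1 : ℕ) : ℝ) / (((n + 1 : ℕ) : ℝ) + 1))) :=
    code_angle hn1 (by norm_num) (by norm_num) (by
      push_cast
      have := Nat.lt_floor_add_one f
      rw [hf] at this ⊢
      push_cast at this ⊢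
      exact this)
  refine ⟨⋃ u ∈ Λ, Bad t M u, Λ.measurableSet_biUnion fun u _ => bad_meas t M u, ?_, ?_⟩
  · -- the probability
    have hsh0 := shareG_pos hs0 (n := n)
    have hsh1 : shareG s n ≤ 1 := shareG_le_one ht0 ht1 hs0 hts hn1
    calc Measure.pi ν (⋃ u ∈ Λ, Bad t M u)
        ≤ ∑ u ∈ Λ, Measure.pi ν (Bad t M u) := measure_biUnion_finset_le _ _
      _ ≤ ∑ _u ∈ Λ, ENNReal.ofReal (1 - shareG s n) ^ M :=
          Finset.sum_le_sum fun u hu => bad_prob ht0 ht1 hs0 hts hn1 (hΛ1 u hu) hM1 ν hν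
      _ = ENNReal.ofReal (Λ.card * (1 - shareG s n) ^ M) := by
          rw [Finset.sum_const, nsmul_eq_mul, ENNReal.ofReal_mul (Nat.cast_nonneg _),
            ENNReal.ofReal_natCast, ENNReal.ofReal_pow (by linarith)]
      _ ≤ _ := by
          apply ENNReal.ofReal_le_ofReal
          have e1 : (1 - shareG s n) ^ M ≤ Real.exp (-(shareG s n * M)) := by
            have := Real.one_sub_le_exp_neg (shareG s n)
            calc (1 - shareG s n) ^ M ≤ Real.exp (-shareG s n) ^ M :=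
                  pow_le_pow_left₀ (by linarith) this M
              _ = Real.exp (-(shareG s n * M)) := by
                  rw [← Real.exp_nat_mul]; ring_nf
          have e2 : (Λ.card : ℝ) ≤ Real.exp (((n + 1 : ℕ) : ℝ) * Real.log (1 + 2 / η)) := by
            refine hΛc.trans (le_of_eq ?_)
            rw [mul_comm, Real.exp_mul, Real.exp_log (by positivity), Real.rpow_natCast]
          have e3 : shareG s n * (q₁ ^ (n + 1) - 1) ≤ shareG s n * M :=
            mul_le_mul_of_nonneg_left hMge hsh0.le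
          calc (Λ.card : ℝ) * (1 - shareG s n) ^ M
              ≤ Real.exp (((n + 1 : ℕ) : ℝ) * Real.log (1 + 2 / η)) *
                Real.exp (-(shareG s n * M)) := by
                apply mul_le_mul e2 e1 (pow_nonneg (by linarith) _) (Real.exp_pos _).le
            _ = Real.exp (((n + 1 : ℕ) : ℝ) * Real.log (1 + 2 / η) - shareG s n * M) := by
                rw [← Real.exp_add]; ring_nf
            _ ≤ _ := by
                apply Real.exp_le_exp.2
                linarith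
  · -- the covering
    intro x hx hint
    have hgood : ∀ u ∈ Λ, ∀ S : Finset ι, M ≤ S.card → Upper x S →
        ∃ i ∈ S, t * ‖x i‖ ≤ ⟪u, x i⟫ := by
      intro u hu S hS hU
      by_contra hcon
      push Not at hcon
      exact hx (mem_biUnion hu ⟨S, hS, hU, hcon⟩)
    refine ⟨_, ?_, cover_upper hcode Γ hΓ x Λ hM1 hηt h1 hΛ hgood hint⟩
    push_cast
    have e1 : (⌊f⌋₊ : ℝ) ≤ f := Nat.floor_le hf0
    have e2 : (Γ.card : ℝ) * M ≤ Real.exp (c * ((n + 1 : ℕ) : ℝ)) * q₁ ^ (n + 1) :=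
      mul_le_mul hΓc hMle (Nat.cast_nonneg _) (Real.exp_pos _).le
    linarith

end Pool.Agent.Helper7.RP
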